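import Pool.Agent.Lib.MP_4a5c06_al.Strict

set_option autoImplicit false

namespace Pool.Agent.Lib.MP_4a5c06_al

theorem A_mono {a b : ℕ} (hab : a ≤ b) : A (2 * a) ≤ A (2 * b) := by
  induction b, hab using Nat.le_induction with
  | base => exact le_rfl
  | succ b _ ih => exact ih.trans (A_mono2 _)

theorem Gi_mono {a b d : ℕ} (hab : a ≤ b) : Gi (2 * a) d ≤ Gi (2 * b) d := by
  induction b, hab using Nat.le_induction with
  | base => exact le_rfl
  | succ b _ ih => exact ih.trans (Gi_mono2 _ _)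

theorem EW_add_self (x : EW) : x + x = 0 := by
  apply LinearMap.ext; intro w; exact W_add_self _

theorem smul_eq (r : ZMod 2) (x : W) : r • x = 0 ∨ r • x = x := by
  by_cases h : r = 0
  · left; rw [h, zero_smul]
  · right; rw [zmod2_eq_one h, one_smul]

/-- even elements lie in some step of the filtration -/
theorem Rs_mem {x : EW} : x ∈ Rs ↔ ∃ n, x ∈ G (2 * n) := Iff.rfl

theorem Gi_Rs {N m : ℕ} {x : EW} (hx : x ∈ Gi (2 * N) (2 * m)) : x ∈ Rs := by
  unfold Gi at hx
  split_ifs at hx with h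
  · exact ⟨N - m, by rwa [show 2 * N - 2 * m = 2 * (N - m) by omega] at hx⟩
  · rw [Submodule.mem_bot] at hx; rw [hx]; exact Rs.zero_mem

theorem Rs_Gi {x : EW} (hx : x ∈ Rs) (m : ℕ) : ∃ N0, ∀ N, N0 ≤ N → x ∈ Gi (2 * N) (2 * m) := by
  obtain ⟨n, hn⟩ := hx
  refine ⟨n + m, fun N hN => Gi_mono hN ?_⟩
  unfold Gi
  rw [if_pos (by omega), show 2 * (n + m) - 2 * m = 2 * n by omega]
  exact hn

theorem Rs_act {x : EW} (hx : x ∈ Rs) {m : ℕ} {v : W} (hv : v ∈ A (2 * m)) :
    ∃ n, x v ∈ A (2 * n) := by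
  obtain ⟨n, hn⟩ := hx
  exact ⟨m + n, by have := G_act hn hv; rwa [← mul_add] at this⟩

section
variable {S : Type} [Fintype S] {v : S → W} {d : S → ℕ}

theorem strict_iter (hv : ∀ s, v s ∈ A (d s)) (hd : ∀ s, 2 ≤ d s) (hS : Fintype.card S < 3)
    (irr : ∀ (D : ℕ) (x : S → EW), (∀ s, x s ∈ Gi (D + 2) (d s)) → ∑ s, x s (v s) ∈ A D →
      ∀ s, d s = D + 2 → x s = 0)
    {k N : ℕ} (hkN : k ≤ N) (x : S → EW) (hx : ∀ s, x s ∈ Gi (2 * N) (d s))
    (hev : ∑ s, x s (v s) ∈ A (2 * k)) (s : S) : x s ∈ Gi (2 * k) (d s) := by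
  induction N, hkN using Nat.le_induction generalizing s with
  | base => exact hx s
  | succ N hN ih =>
    refine ih (fun s => ?_) s
    exact strict hv hd hS irr (2 * N) x hx (A_mono hN hev) s

end

/-- exact degree -/
def Deg (v : W) (m : ℕ) : Prop := v ∈ A (2 * (m + 1)) ∧ v ∉ A (2 * m)

theorem single_strict {v : W} {m : ℕ} (hv : Deg v m) {x : EW} (hx : x ∈ Rs) {k : ℕ}
    (hk : x v ∈ A (2 * k)) : x ∈ Gi (2 * k) (2 * (m + 1)) := by
  obtain ⟨N0, hN0⟩ := Rs_Gi hx (m + 1)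
  refine strict_iter (S := Fin 1) (v := fun _ => v) (d := fun _ => 2 * (m + 1)) (fun _ => hv.1)
    (fun _ => by omega) (by simp) ?_ (le_max_left k N0) (fun _ => x)
    (fun _ => hN0 _ (le_max_right k N0)) (by simpa using hk) 0
  intro D y hy hev s hs
  have h0 := hy s
  unfold Gi at h0
  rw [if_pos (le_of_eq hs), hs, Nat.sub_self] at h0
  obtain ⟨r, hr⟩ := mem_G0.1 h0
  by_cases hr0 : r = 0
  · rw [hr, hr0, zero_smul]
  · exfalso
    apply hv.2
    have e : D = 2 * m := by omega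
    have : ∑ s, y s v = v := by
      rw [Fin.sum_univ_one]
      have : s = 0 := Subsingleton.elim _ _
      subst this
      rw [hr, zmod2_eq_one hr0, one_smul]; rfl
    rw [this, e] at hev
    exact hev

theorem single_zero {v : W} {m : ℕ} (hv : Deg v m) {x : EW} (hx : x ∈ Rs)
    (hk : x v ∈ A (2 * m)) : x = 0 := by
  have := single_strict hv hx hk
  unfold Gi at this
  rw [if_neg (by omega)] at this
  exact (Submodule.mem_bot _).1 this

theorem single_scalar {v : W} {m : ℕ} (hv : Deg v m) {x : EW} (hx : x ∈ Rs)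
    (hk : x v ∈ A (2 * (m + 1))) : x ∈ G 0 := by
  have := single_strict hv hx hk
  unfold Gi at this
  rwa [if_pos le_rfl, Nat.sub_self] at this

theorem pair_lemma {v w : W} {m n : ℕ} (hv : Deg v m) (hw : Deg w n) {x y : EW}
    (hx : x ∈ Rs) (hy : y ∈ Rs) {k : ℕ} (hk : x v + y w ∈ A (2 * k)) :
    (x ∈ Gi (2 * k) (2 * (m + 1)) ∧ y ∈ Gi (2 * k) (2 * (n + 1))) ∨
    (∃ z ∈ Rs, v + z w ∈ A (2 * m)) ∨ (∃ z ∈ Rs, w + z v ∈ A (2 * n)) := by
  by_cases irr : ∀ (D : ℕ) (x : Fin 2 → EW),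
      (∀ s, x s ∈ Gi (D + 2) (![2 * (m + 1), 2 * (n + 1)] s)) →
      ∑ s, x s (![v, w] s) ∈ A D → ∀ s, ![2 * (m + 1), 2 * (n + 1)] s = D + 2 → x s = 0
  · left
    obtain ⟨N0, hN0⟩ := Rs_Gi hx (m + 1)
    obtain ⟨N1, hN1⟩ := Rs_Gi hy (n + 1)
    have key := strict_iter (S := Fin 2) (v := ![v, w]) (d := ![2 * (m + 1), 2 * (n + 1)])
      (by intro s; fin_cases s; exacts [hv.1, hw.1])
      (by intro s; fin_cases s <;> simp) (by simp) irr
      (le_max_left k (max N0 N1)) ![x, y]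
      (by
        intro s; fin_cases s
        · exact hN0 _ ((le_max_left _ _).trans (le_max_right _ _))
        · exact hN1 _ ((le_max_right _ _).trans (le_max_right _ _)))
      (by simpa [Fin.sum_univ_two] using hk)
    exact ⟨key 0, key 1⟩
  · right
    push Not at irr
    obtain ⟨D, u, hu, hev, s, hs, hne⟩ := irr
    rw [Fin.sum_univ_two] at hev
    have h1 : ∀ s, ![2 * (m + 1), 2 * (n + 1)] s = D + 2 → u s ≠ 0 → u s = 1 := by
      intro s hs hne
      have h0 := hu s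
      unfold Gi at h0
      rw [if_pos (le_of_eq hs), hs, Nat.sub_self] at h0
      obtain ⟨r, hr⟩ := mem_G0.1 h0
      have : r ≠ 0 := by rintro rfl; exact hne (by rw [hr, zero_smul])
      rw [hr, zmod2_eq_one this, one_smul]
    have hus := h1 s hs hne
    fin_cases s
    · left
      have hD : D = 2 * m := by
        have : 2 * (m + 1) = D + 2 := hs
        omega
      refine ⟨u 1, ?_, ?_⟩
      · have h2 := hu 1
        rw [hD, show 2 * m + 2 = 2 * (m + 1) by ring] at h2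
        exact Gi_Rs h2
      · have hus' : u 0 = 1 := hus
        rw [hus', hD] at hev
        exact hev
    · right
      have hD : D = 2 * n := by
        have : 2 * (n + 1) = D + 2 := hs
        omega
      refine ⟨u 0, ?_, ?_⟩
      · have h2 := hu 0
        rw [hD, show 2 * n + 2 = 2 * (n + 1) by ring] at h2
        exact Gi_Rs h2
      · have hus' : u 1 = 1 := hus
        rw [hus', hD, add_comm] at hev
        exact hev

/-! ### the degree function -/

open Classical in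
/-- degree of a vector of even type -/
noncomputable def dl (v : W) : ℕ := sInf {n | v ∈ A (2 * n)}

/-- bounded even type -/
def Bd (v : W) : Prop := ∃ n, v ∈ A (2 * n)

theorem Bd.mem {v : W} (h : Bd v) : v ∈ A (2 * dl v) := Nat.sInf_mem (s := {n | v ∈ A (2 * n)}) h

theorem Bd.le_iff {v : W} (h : Bd v) {n : ℕ} : dl v ≤ n ↔ v ∈ A (2 * n) := by
  constructor
  · intro hn; exact A_mono hn h.mem
  · intro hn; exact Nat.sInf_le hn

theorem Bd.add {v w : W} (hv : Bd v) (hw : Bd w) : Bd (v + w) := by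
  obtain ⟨a, ha⟩ := hv
  obtain ⟨b, hb⟩ := hw
  exact ⟨max a b, Submodule.add_mem _ (A_mono (le_max_left _ _) ha) (A_mono (le_max_right _ _) hb)⟩

theorem Bd.zero : Bd 0 := ⟨0, Submodule.zero_mem _⟩

theorem Bd.act {v : W} (hv : Bd v) {x : EW} (hx : x ∈ Rs) : Bd (x v) := by
  obtain ⟨a, ha⟩ := hv
  exact Rs_act hx ha

theorem Bd.sum {ι : Type} (s : Finset ι) (f : ι → W) (h : ∀ i ∈ s, Bd (f i)) :
    Bd (∑ i ∈ s, f i) := by
  classical
  induction s using Finset.induction_on with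
  | empty => simpa using Bd.zero
  | insert a s ha ih =>
    rw [Finset.sum_insert ha]
    exact (h a (Finset.mem_insert_self _ _)).add (ih (fun i hi => h i (Finset.mem_insert_of_mem hi)))

theorem dl_pos {v : W} (h : Bd v) (h0 : v ≠ 0) : 0 < dl v := by
  rw [Nat.pos_iff_ne_zero]
  intro hz
  have := h.mem
  rw [hz, Nat.mul_zero, A_zero] at this
  exact h0 ((Submodule.mem_bot _).1 this)

theorem Bd.Deg {v : W} (h : Bd v) (h0 : v ≠ 0) : Deg v (dl v - 1) := by
  have hp := dl_pos h h0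
  constructor
  · rw [show dl v - 1 + 1 = dl v by omega]; exact h.mem
  · intro hc
    have := (h.le_iff).2 hc
    omega

theorem Deg.bd {v : W} {m : ℕ} (h : Deg v m) : Bd v := ⟨_, h.1⟩

theorem Deg.dl_eq {v : W} {m : ℕ} (h : Deg v m) : dl v = m + 1 := by
  have h1 := (h.bd.le_iff).2 h.1
  have h2 : ¬ dl v ≤ m := fun hc => h.2 ((h.bd.le_iff).1 hc)
  omega

end Pool.Agent.Lib.MP_4a5c06_al
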