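import Mathlib

set_option autoImplicit false

namespace Pool.Agent.Lib.MP_4a5c06_al

open scoped Pointwise Function

/-- a consequence of the ping-pong lemma for a group and an involution -/
theorem free_disjoint {G α : Type} [Group G] [MulAction G α] (E : Subgroup G) (g0 : G)
    (hg : g0 * g0 = 1) (A B : Set α) (hA : A.Nonempty) (hB : B.Nonempty) (hAB : Disjoint A B)
    (h1 : ∀ e ∈ E, e ≠ 1 → ∀ x ∈ B, e • x ∈ A) (h2 : ∀ x ∈ A, g0 • x ∈ B)
    (hcard : ∃ a ∈ E, ∃ b ∈ E, a ≠ 1 ∧ b ≠ 1 ∧ a ≠ b) (x : G) (hx : x ∈ E)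
    (hxN : x ∈ Subgroup.closure {y : G | ∃ e ∈ E, y = e * g0 * e⁻¹}) : x = 1 := by
  classical
  let Hs : Bool → Subgroup G := fun b => bif b then E else Subgroup.zpowers g0
  let f : ∀ b, Hs b →* G := fun b => (Hs b).subtype
  let X : Bool → Set α := fun b => bif b then A else B
  have hz : ∀ y : G, y ∈ Subgroup.zpowers g0 → y = 1 ∨ y = g0 := by
    intro y hy
    rw [Subgroup.mem_zpowers_iff] at hy
    obtain ⟨k, rfl⟩ := hy
    rcases Int.even_or_odd k with ⟨m, rfl⟩ | ⟨m, rfl⟩
    · left
      rw [← two_mul, zpow_mul]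
      have : g0 ^ (2 : ℤ) = 1 := by
        rw [zpow_two]; exact hg
      rw [this, one_zpow]
    · right
      rw [zpow_add, zpow_mul, zpow_one]
      have : g0 ^ (2 : ℤ) = 1 := by
        rw [zpow_two]; exact hg
      rw [this, one_zpow, one_mul]
  have hinj : Function.Injective (Monoid.CoprodI.lift f) := by
    apply Monoid.CoprodI.lift_injective_of_ping_pong f _ X
    · intro b
      cases b
      · exact hB
      · exact hA
    · intro b c hbc
      cases b <;> cases c
      · exact absurd rfl hbc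
      · exact hAB.symm
      · exact hAB
      · exact absurd rfl hbc
    · intro b c hbc h hh
      cases b <;> cases c
      · exact absurd rfl hbc
      · rintro _ ⟨y, hy, rfl⟩
        rcases hz h.1 h.2 with h' | h'
        · exact absurd (Subtype.ext h') hh
        · show (h.1 • y) ∈ B
          rw [h']
          exact h2 y hy
      · rintro _ ⟨y, hy, rfl⟩
        exact h1 h.1 h.2 (fun h' => hh (Subtype.ext h')) y hy
      · exact absurd rfl hbc
    · right
      refine ⟨true, ?_⟩
      obtain ⟨a, ha, b, hb, ha1, hb1, hab⟩ := hcard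
      have : Function.Injective (fun k : Fin 3 =>
          (![⟨1, E.one_mem⟩, ⟨a, ha⟩, ⟨b, hb⟩] k : E)) := by
        intro p q hpq
        fin_cases p <;> fin_cases q <;>
          simp_all
      have h3 := Cardinal.mk_le_of_injective this
      rw [Cardinal.mk_fin] at h3
      exact_mod_cast h3
  let ρ : Monoid.CoprodI (fun b => Hs b) →* E :=
    Monoid.CoprodI.lift (fun b => match b with
      | true => MonoidHom.id E
      | false => 1)
  have hN : Subgroup.closure {y : G | ∃ e ∈ E, y = e * g0 * e⁻¹} ≤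
      Subgroup.map (Monoid.CoprodI.lift f) ρ.ker := by
    rw [Subgroup.closure_le]
    rintro y ⟨e, he, rfl⟩
    refine ⟨Monoid.CoprodI.of (i := true) (⟨e, he⟩ : Hs true) *
      Monoid.CoprodI.of (i := false) (⟨g0, Subgroup.mem_zpowers g0⟩ : Hs false) *
      (Monoid.CoprodI.of (i := true) (⟨e, he⟩ : Hs true))⁻¹, ?_, ?_⟩
    · show ρ _ = 1
      simp only [map_mul, map_inv, ρ, Monoid.CoprodI.lift_of]
      simp
    · simp only [map_mul, map_inv, Monoid.CoprodI.lift_of]
      rfl
  obtain ⟨y, hy, hyx⟩ := hN hxN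
  have hy' : y = Monoid.CoprodI.of (i := true) (⟨x, hx⟩ : Hs true) := by
    apply hinj
    rw [hyx, Monoid.CoprodI.lift_of]
    rfl
  have h3 : ρ y = 1 := hy
  rw [hy'] at h3
  simp only [ρ, Monoid.CoprodI.lift_of] at h3
  exact congrArg Subtype.val h3

end Pool.Agent.Lib.MP_4a5c06_al
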