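import Pool.Agent.Lib.MP_4a5c06_al.Level

set_option autoImplicit false

namespace Pool.Agent.Lib.MP_4a5c06_al

open scoped Pointwise Function

/-- the ping-pong lemma for a group and an involution, binary free product -/
theorem free_inj {G α : Type} [Group G] [MulAction G α] (E : Subgroup G) (g0 : G)
    (hg : g0 * g0 = 1) (A B : Set α) (hA : A.Nonempty) (hB : B.Nonempty) (hAB : Disjoint A B)
    (h1 : ∀ e ∈ E, e ≠ 1 → ∀ x ∈ B, e • x ∈ A) (h2 : ∀ x ∈ A, g0 • x ∈ B)
    (hcard : ∃ a ∈ E, ∃ b ∈ E, a ≠ 1 ∧ b ≠ 1 ∧ a ≠ b) :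
    Function.Injective (Monoid.Coprod.lift E.subtype (Subgroup.zpowers g0).subtype) := by
  classical
  let Hs : Bool → Subgroup G := fun b => bif b then E else Subgroup.zpowers g0
  let f : ∀ b, Hs b →* G := fun b => (Hs b).subtype
  let X : Bool → Set α := fun b => bif b then A else B
  have hz : ∀ y : G, y ∈ Subgroup.zpowers g0 → y = 1 ∨ y = g0 := by
    intro y hy
    rw [Subgroup.mem_zpowers_iff] at hy
    obtain ⟨k, rfl⟩ := hy
    rcases Int.even_or_odd k with ⟨m, rfl⟩ | ⟨m, rfl⟩
    · left
      rw [← two_mul, zpow_mul]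
      have : g0 ^ (2 : ℤ) = 1 := by
        rw [zpow_two]; exact hg
      rw [this, one_zpow]
    · right
      rw [zpow_add, zpow_mul, zpow_one]
      have : g0 ^ (2 : ℤ) = 1 := by
        rw [zpow_two]; exact hg
      rw [this, one_zpow, one_mul]
  have hinj : Function.Injective (Monoid.CoprodI.lift f) := by
    apply Monoid.CoprodI.lift_injective_of_ping_pong f _ X
    · intro b
      cases b
      · exact hB
      · exact hA
    · intro b c hbc
      cases b <;> cases c
      · exact absurd rfl hbc
      · exact hAB.symm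
      · exact hAB
      · exact absurd rfl hbc
    · intro b c hbc h hh
      cases b <;> cases c
      · exact absurd rfl hbc
      · rintro _ ⟨y, hy, rfl⟩
        rcases hz h.1 h.2 with h' | h'
        · exact absurd (Subtype.ext h') hh
        · show (h.1 • y) ∈ B
          rw [h']
          exact h2 y hy
      · rintro _ ⟨y, hy, rfl⟩
        exact h1 h.1 h.2 (fun h' => hh (Subtype.ext h')) y hy
      · exact absurd rfl hbc
    · right
      refine ⟨true, ?_⟩
      obtain ⟨a, ha, b, hb, ha1, hb1, hab⟩ := hcard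
      have : Function.Injective (fun k : Fin 3 =>
          (![⟨1, E.one_mem⟩, ⟨a, ha⟩, ⟨b, hb⟩] k : E)) := by
        intro p q hpq
        fin_cases p <;> fin_cases q <;>
          simp_all
      have h3 := Cardinal.mk_le_of_injective this
      rw [Cardinal.mk_fin] at h3
      exact_mod_cast h3
  let φ : Monoid.Coprod E (Subgroup.zpowers g0) →* Monoid.CoprodI (fun b => Hs b) :=
    Monoid.Coprod.lift
      (Monoid.CoprodI.of (M := fun b => Hs b) (i := true) : (Hs true) →* _)
      (Monoid.CoprodI.of (M := fun b => Hs b) (i := false) : (Hs false) →* _)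
  let ψ : Monoid.CoprodI (fun b => Hs b) →* Monoid.Coprod E (Subgroup.zpowers g0) :=
    Monoid.CoprodI.lift (fun b => match b with
      | true => (Monoid.Coprod.inl : E →* _)
      | false => (Monoid.Coprod.inr : Subgroup.zpowers g0 →* _))
  have hφ : Function.Injective φ := by
    have h : ψ.comp φ = MonoidHom.id _ := by
      apply Monoid.Coprod.hom_ext
      · ext x
        simp only [MonoidHom.comp_apply, φ, ψ, Monoid.Coprod.lift_apply_inl,
          Monoid.CoprodI.lift_of, MonoidHom.id_apply]
      · ext x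
        simp only [MonoidHom.comp_apply, φ, ψ, Monoid.Coprod.lift_apply_inr,
          Monoid.CoprodI.lift_of, MonoidHom.id_apply]
    exact Function.LeftInverse.injective (g := ψ) (fun x => DFunLike.congr_fun h x)
  have hcomp : Monoid.Coprod.lift E.subtype (Subgroup.zpowers g0).subtype =
      (Monoid.CoprodI.lift f).comp φ := by
    apply Monoid.Coprod.hom_ext
    · ext x
      simp only [MonoidHom.comp_apply, φ, Monoid.Coprod.lift_apply_inl, Monoid.CoprodI.lift_of]
      rfl
    · ext x
      simp only [MonoidHom.comp_apply, φ, Monoid.Coprod.lift_apply_inr, Monoid.CoprodI.lift_of]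
      rfl
  rw [hcomp]
  exact hinj.comp hφ

/-- The elementary group and the extra involution generate their free product. -/
theorem free_product : Function.Injective
    (Monoid.Coprod.lift (Subgroup.closure gens).subtype (Subgroup.zpowers g0).subtype) := by
  refine free_inj (α := VV) (Subgroup.closure gens) g0 g0_mul_self SA SB
    ⟨v0, v0_SA⟩ ⟨act (g0 : MR) v0, g0_SA v0_SA⟩ SA_SB
    (fun e he h1 v hv => E_SB he h1 hv) (fun v hv => g0_SA hv) ?_
  refine ⟨ge 0 1, Subgroup.subset_closure (ge_mem (by decide)), ge 0 2,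
    Subgroup.subset_closure (ge_mem (by decide)), ge_ne_one (by decide), ge_ne_one (by decide), ?_⟩
  intro h
  have h1 : (ge 0 1 : MR) 0 2 = (ge 0 2 : MR) 0 2 := by rw [h]
  rw [ge_apply (by decide)] at h1
  have h2 : (ge 0 1 : MR) 0 2 = 0 := rfl
  rw [h2] at h1
  exact Rs_one_ne h1.symm

theorem charP_Rs : CharP Rs 2 := by
  apply CharTwo.of_one_ne_zero_of_two_eq_zero Rs_one_ne
  have h : (2 : Rs) = 1 + 1 := (one_add_one_eq_two).symm
  have h2 : (1 : EW) + 1 = 0 := by
    refine LinearMap.ext (fun w => ?_)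
    show w + w = 0
    have h3 : (2 : ZMod 2) = 0 := by decide
    have h4 : w + w = (2 : ZMod 2) • w := (two_smul (ZMod 2) w).symm
    rw [h4, h3, zero_smul]
  apply Subtype.ext
  exact (congrArg Subtype.val h).trans h2

theorem single_eq (i j : Fin 3) (x : Rs) : (Matrix.single i j x : MR) =
    Matrix.of (fun a b => if a = i ∧ b = j then x else 0) := by
  apply Matrix.ext
  intro a b
  rw [Matrix.single_apply, Matrix.of_apply]
  by_cases h : a = i ∧ b = j
  · rw [if_pos h, if_pos ⟨h.1.symm, h.2.symm⟩]
  · rw [if_neg h, if_neg (fun h' => h ⟨h'.1.symm, h'.2.symm⟩)]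

theorem level_ideal : ∀ I : TwoSidedIdeal Rs, I ≠ ⊤ →
    ∃ h ∈ ⁅Subgroup.closure {y : MRˣ | ∃ e ∈ Subgroup.closure gens, y = e * g0 * e⁻¹},
      Subgroup.closure gens⁆, ∃ i j : Fin 3, (h : MR) i j - (1 : MR) i j ∉ I := by
  intro I hI
  by_contra hcon
  push Not at hcon
  apply hI
  rw [← TwoSidedIdeal.one_mem_iff]
  have h1 := level I.ringCon.mk' (RingCon.mk'_surjective _) (by
    intro g hg i j
    have hg0 : g0 ∈ Subgroup.closure
        {y : MRˣ | ∃ e ∈ Subgroup.closure gens, y = e * g0 * e⁻¹} :=
      Subgroup.subset_closure ⟨1, Subgroup.one_mem _, by group⟩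
    have h2 := hcon _ (Subgroup.commutator_mem_commutator hg0 (Subgroup.subset_closure hg)) i j
    have h3 := (TwoSidedIdeal.rel_iff I _ _).2 h2
    exact (RingCon.eq _).2 h3)
  have h2 : I.ringCon 1 0 := by
    apply (RingCon.eq _).1
    exact h1
  exact h2

end Pool.Agent.Lib.MP_4a5c06_al
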