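import Pool.Agent.Lib.MP_4a5c06_al.Sets

set_option autoImplicit false

namespace Pool.Agent.Lib.MP_4a5c06_al

theorem single_comm {Q : Type} [Ring Q] (x : Matrix (Fin 3) (Fin 3) Q)
    (h : ∀ i j : Fin 3, i ≠ j → ∀ c : Q, x * Matrix.single i j c = Matrix.single i j c * x)
    (y : Matrix (Fin 3) (Fin 3) Q) : x * y = y * x := by
  have h2 : ∀ i j : Fin 3, ∀ c : Q, x * Matrix.single i j c = Matrix.single i j c * x := by
    intro i j c
    by_cases hij : i = j
    · subst hij
      obtain ⟨l, _, hil, _, _⟩ := others i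
      have e : Matrix.single i i c = Matrix.single i l c * Matrix.single l i (1 : Q) := by
        rw [Matrix.single_mul_single_same, mul_one]
      rw [e, ← mul_assoc, h i l hil, mul_assoc, h l i (Ne.symm hil), mul_assoc]
    · exact h i j hij c
  rw [Matrix.matrix_eq_sum_single y]
  simp only [Finset.mul_sum, Finset.sum_mul, h2]

/-- The generators of the elementary group. -/
theorem elem_val {i j : Fin 3} (hij : i ≠ j) (c : Rs) :
    ∃ g ∈ gens, (g : MR) = 1 + Matrix.single i j c := by
  refine ⟨Tu i (Pi.single j c), ⟨i, j, c, hij, ?_⟩, ?_⟩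
  · apply Matrix.ext
    intro a b
    show Tm i (Pi.single j c) a b = (1 : MR) a b + (if a = i ∧ b = j then c else 0)
    unfold Tm
    by_cases hab : a = b
    · subst hab
      rw [Matrix.one_apply_eq, if_pos rfl, if_neg, add_zero]
      rintro ⟨rfl, rfl⟩
      exact hij rfl
    · rw [Matrix.one_apply_ne hab, if_neg hab, zero_add]
      by_cases hai : a = i
      · by_cases hbj : b = j
        · rw [if_pos hai, if_pos ⟨hai, hbj⟩, hbj, Pi.single_eq_same]
        · rw [if_pos hai, if_neg (fun h => hbj h.2), Pi.single_eq_of_ne hbj]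
      · rw [if_neg hai, if_neg (fun h => hai h.1)]
  · apply Matrix.ext
    intro a b
    show Tm i (Pi.single j c) a b = (1 : MR) a b + Matrix.single i j c a b
    rw [Matrix.single_apply]
    unfold Tm
    by_cases hab : a = b
    · subst hab
      rw [Matrix.one_apply_eq, if_pos rfl, if_neg, add_zero]
      rintro ⟨rfl, rfl⟩
      exact hij rfl
    · rw [Matrix.one_apply_ne hab, if_neg hab, zero_add]
      by_cases hai : a = i
      · by_cases hbj : b = j
        · rw [if_pos hai, if_pos ⟨hai.symm, hbj.symm⟩, hbj, Pi.single_eq_same]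
        · rw [if_pos hai, if_neg (fun h => hbj h.2.symm), Pi.single_eq_of_ne hbj]
      · rw [if_neg hai, if_neg (fun h => hai h.1.symm)]

/-- No proper ideal makes the extra involution commute with the elementary group. -/
theorem level {Q : Type} [Ring Q] (π : Rs →+* Q) (hπ : Function.Surjective π)
    (h : ∀ g ∈ gens, ∀ i j, π (((g0 * g * g0⁻¹ * g⁻¹ : MRˣ) : MR) i j) = π ((1 : MR) i j)) :
    (1 : Q) = 0 := by
  have hm : ∀ g ∈ gens, π.mapMatrix ((g0 * g * g0⁻¹ * g⁻¹ : MRˣ) : MR) = 1 := by
    intro g hg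
    rw [← map_one π.mapMatrix]
    apply Matrix.ext
    intro i j
    rw [RingHom.mapMatrix_apply, RingHom.mapMatrix_apply, Matrix.map_apply, Matrix.map_apply]
    exact h g hg i j
  have hcomm : ∀ g ∈ gens, π.mapMatrix (g0 : MR) * π.mapMatrix (g : MR) =
      π.mapMatrix (g : MR) * π.mapMatrix (g0 : MR) := by
    intro g hg
    have h1 : g0 * g = (g0 * g * g0⁻¹ * g⁻¹) * (g * g0) := by group
    have h2 : π.mapMatrix ((g0 * g : MRˣ) : MR) =
        π.mapMatrix (((g0 * g * g0⁻¹ * g⁻¹) * (g * g0) : MRˣ) : MR) := by rw [← h1]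
    rw [Units.val_mul (g0 * g * g0⁻¹ * g⁻¹), map_mul, hm g hg, one_mul, Units.val_mul,
      Units.val_mul, map_mul, map_mul] at h2
    exact h2
  set x := π.mapMatrix (B 0 1) with hx
  have hx1 : ∀ i j : Fin 3, i ≠ j → ∀ c : Q, x * Matrix.single i j c = Matrix.single i j c * x := by
    intro i j hij c
    obtain ⟨c, rfl⟩ := hπ c
    obtain ⟨g, hg, hgv⟩ := elem_val hij c
    have h1 := hcomm g hg
    have hg0 : (g0 : MR) = 1 + B 0 1 := rfl
    have hs : π.mapMatrix (Matrix.single i j c) = Matrix.single i j (π c) := by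
      rw [RingHom.mapMatrix_apply]
      exact Matrix.map_single i j c π
    rw [hgv, hg0, map_add, map_add, map_one, hs, ← hx] at h1
    have h2 : x * Matrix.single i j (π c) - Matrix.single i j (π c) * x = 0 := by
      have h3 := sub_eq_zero.2 h1
      calc x * Matrix.single i j (π c) - Matrix.single i j (π c) * x
          = (1 + x) * (1 + Matrix.single i j (π c)) - (1 + Matrix.single i j (π c)) * (1 + x) := by
            noncomm_ring
        _ = 0 := h3
    exact sub_eq_zero.1 h2
  have hx2 := single_comm x hx1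
  have h1 : (1 : MR) = ∑ a, B a 0 * (B 0 1 * B 1 a) := by
    rw [← B_sum]
    refine Finset.sum_congr rfl (fun a _ => ?_)
    rw [B_mul, if_pos rfl, B_mul, if_pos rfl]
  have h2 := congrArg π.mapMatrix h1
  rw [map_one, map_sum] at h2
  have h3 : ∀ a, π.mapMatrix (B a 0 * (B 0 1 * B 1 a)) = 0 := by
    intro a
    rw [map_mul, map_mul, ← hx, hx2, ← mul_assoc, ← map_mul, B_mul, if_neg (by decide), map_zero,
      zero_mul]
  simp only [h3, Finset.sum_const_zero] at h2
  have h4 := congrFun (congrFun h2 0) 0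
  rw [Matrix.one_apply_eq] at h4
  exact h4

end Pool.Agent.Lib.MP_4a5c06_al
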