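import Mathlib

set_option autoImplicit false

/-!
The Fock-type model of a generic involution on a direct sum of three copies
of a module over the field with two elements.
-/

namespace Pool.Agent.Lib.MP_4a5c06_al

/-- letters -/
abbrev Lt := Fin 3 × Fin 3
/-- coefficients -/
abbrev Mc := Fin 3 → ZMod 2
/-- functions on words -/
abbrev Fn := List Lt → Mc

theorem mc_add_self (x : Mc) : x + x = 0 := by
  funext i; exact CharTwo.add_self_eq_zero (x i)

/-- contraction with the first letter -/
def Tc (c : Fin 3 → Fn) (i : Fin 3) (w : List Lt) : Mc := ∑ j, c j ((j, i) :: w)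

/-- the correction term -/
def Uc (c : Fin 3 → Fn) (j : Fin 3) : List Lt → Mc
  | [] => 0
  | p :: w => if j = p.1 then Tc c p.2 w else 0

/-- the creation part -/
def Cc (c : Fin 3 → Fn) (i : Fin 3) : List Lt → Mc
  | [] => 0
  | p :: w => if i = p.1 then c p.2 w + Uc c p.2 w else 0

theorem Uc_nil (c : Fin 3 → Fn) (j : Fin 3) : Uc c j [] = 0 := rfl
theorem Uc_cons (c : Fin 3 → Fn) (j : Fin 3) (p : Lt) (w : List Lt) :
    Uc c j (p :: w) = if j = p.1 then Tc c p.2 w else 0 := rfl
theorem Cc_nil (c : Fin 3 → Fn) (j : Fin 3) : Cc c j [] = 0 := rfl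
theorem Cc_cons (c : Fin 3 → Fn) (i : Fin 3) (p : Lt) (w : List Lt) :
    Cc c i (p :: w) = if i = p.1 then c p.2 w + Uc c p.2 w else 0 := rfl

/-- the involution on triples of functions -/
def Zf (c : Fin 3 → Fn) (i : Fin 3) (w : List Lt) : Mc := Tc c i w + Cc c i w

/-- the trace zero condition at inner junctions -/
def TZ (f : Fn) : Prop := ∀ (l₁ : List Lt) (i j : Fin 3) (l₂ : List Lt),
  ∑ a, f (l₁ ++ (i, a) :: (a, j) :: l₂) = 0

theorem Tc_Zf (c : Fin 3 → Fn) (hc : ∀ i, TZ (c i)) (i : Fin 3) (w : List Lt) :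
    Tc (Zf c) i w = c i w + Uc c i w := by
  have h1 : ∑ j, Tc c j ((j, i) :: w) = 0 := by
    unfold Tc
    rw [Finset.sum_comm]
    exact Finset.sum_eq_zero (fun a _ => hc a [] a i w)
  have h2 : Tc (Zf c) i w = ∑ j, (Tc c j ((j, i) :: w) + (c i w + Uc c i w)) := by
    unfold Tc
    refine Finset.sum_congr rfl (fun j _ => ?_)
    show Tc c j ((j, i) :: w) + Cc c j ((j, i) :: w) = _
    simp [Cc_cons]
    rfl
  rw [h2, Finset.sum_add_distrib, h1, zero_add, Fin.sum_univ_three, mc_add_self, zero_add]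

theorem Zf_Zf (c : Fin 3 → Fn) (hc : ∀ i, TZ (c i)) : Zf (Zf c) = c := by
  funext i w
  show Tc (Zf c) i w + Cc (Zf c) i w = c i w
  rw [Tc_Zf c hc]
  have hU : ∀ (j : Fin 3) (u : List Lt), Uc (Zf c) j u = Cc c j u := by
    intro j u
    cases u with
    | nil => rfl
    | cons p u => rw [Uc_cons, Cc_cons, Tc_Zf c hc]
  cases w with
  | nil => simp [Uc_nil, Cc_nil]
  | cons p w =>
    have : Cc (Zf c) i (p :: w) = Uc c i (p :: w) := by
      rw [Cc_cons, Uc_cons]
      split_ifs with h
      · rw [hU]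
        show Tc c p.2 w + Cc c p.2 w + Cc c p.2 w = Tc c p.2 w
        rw [add_assoc, mc_add_self, add_zero]
      · rfl
    rw [this, add_assoc, mc_add_self, add_zero]

theorem TZ_Zf (c : Fin 3 → Fn) (hc : ∀ i, TZ (c i)) (i : Fin 3) : TZ (Zf c i) := by
  intro l₁ p q l₂
  show ∑ a, (Tc c i (l₁ ++ (p, a) :: (a, q) :: l₂) + Cc c i (l₁ ++ (p, a) :: (a, q) :: l₂)) = 0
  rw [Finset.sum_add_distrib]
  have h1 : ∀ (l : List Lt) (i : Fin 3), ∑ a, Tc c i (l ++ (p, a) :: (a, q) :: l₂) = 0 := by
    intro l i
    unfold Tc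
    rw [Finset.sum_comm]
    exact Finset.sum_eq_zero (fun j _ => by
      have := hc j ((j, i) :: l) p q l₂
      simpa using this)
  rw [h1, zero_add]
  rcases l₁ with _ | ⟨⟨i1, j1⟩, _ | ⟨⟨i2, j2⟩, l⟩⟩
  · simp only [List.nil_append, Cc_cons, Uc_cons]
    split_ifs with h
    · simp only [Finset.sum_add_distrib]
      have : ∑ x, c x ((x, q) :: l₂) = Tc c q l₂ := rfl
      rw [this, Fin.sum_univ_three, mc_add_self, zero_add, mc_add_self]
    · simp
  · simp only [List.cons_append, List.nil_append, Cc_cons, Uc_cons]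
    split_ifs with h h'
    · rw [Finset.sum_add_distrib]
      have e1 := hc j1 [] p q l₂
      have e2 : ∑ x, Tc c x ((x, q) :: l₂) = 0 := by
        unfold Tc
        rw [Finset.sum_comm]
        exact Finset.sum_eq_zero (fun j _ => hc j [] j q l₂)
      simp only [List.nil_append] at e1
      rw [e1, e2, add_zero]
    · have e1 := hc j1 [] p q l₂
      simpa using e1
    · simp
  · simp only [List.cons_append, Cc_cons, Uc_cons]
    split_ifs with h h'
    · rw [Finset.sum_add_distrib]
      have e1 := hc j1 ((i2, j2) :: l) p q l₂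
      simp only [List.cons_append] at e1
      rw [e1, h1, add_zero]
    · have e1 := hc j1 ((i2, j2) :: l) p q l₂
      simpa using e1
    · simp

/-! ### additivity -/

theorem Tc_add (c c' : Fin 3 → Fn) (i : Fin 3) (w : List Lt) :
    Tc (c + c') i w = Tc c i w + Tc c' i w := by
  simp [Tc, Finset.sum_add_distrib]

theorem Tc_smul (r : ZMod 2) (c : Fin 3 → Fn) (i : Fin 3) (w : List Lt) :
    Tc (r • c) i w = r • Tc c i w := by
  simp [Tc, Finset.smul_sum]

theorem Uc_add (c c' : Fin 3 → Fn) (i : Fin 3) (w : List Lt) :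
    Uc (c + c') i w = Uc c i w + Uc c' i w := by
  cases w with
  | nil => simp [Uc_nil]
  | cons p w => simp only [Uc_cons]; split_ifs <;> simp [Tc_add]

theorem Uc_smul (r : ZMod 2) (c : Fin 3 → Fn) (i : Fin 3) (w : List Lt) :
    Uc (r • c) i w = r • Uc c i w := by
  cases w with
  | nil => simp [Uc_nil]
  | cons p w => simp only [Uc_cons]; split_ifs <;> simp [Tc_smul]

theorem Cc_add (c c' : Fin 3 → Fn) (i : Fin 3) (w : List Lt) :
    Cc (c + c') i w = Cc c i w + Cc c' i w := by
  cases w with
  | nil => simp [Cc_nil]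
  | cons p w =>
    simp only [Cc_cons]
    split_ifs
    · rw [Uc_add]; simp only [Pi.add_apply]; abel
    · simp

theorem Cc_smul (r : ZMod 2) (c : Fin 3 → Fn) (i : Fin 3) (w : List Lt) :
    Cc (r • c) i w = r • Cc c i w := by
  cases w with
  | nil => simp [Cc_nil]
  | cons p w =>
    simp only [Cc_cons]
    split_ifs
    · rw [Uc_smul, smul_add]; rfl
    · simp

theorem Zf_add (c c' : Fin 3 → Fn) : Zf (c + c') = Zf c + Zf c' := by
  funext i w
  show Tc (c + c') i w + Cc (c + c') i w = (Tc c i w + Cc c i w) + (Tc c' i w + Cc c' i w)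
  rw [Tc_add, Cc_add]; abel

theorem Zf_smul (r : ZMod 2) (c : Fin 3 → Fn) : Zf (r • c) = r • Zf c := by
  funext i w
  show Tc (r • c) i w + Cc (r • c) i w = r • (Tc c i w + Cc c i w)
  rw [Tc_smul, Cc_smul, smul_add]

/-! ### the module -/

/-- the space of functions on words with the trace zero condition -/
def Wsub : Submodule (ZMod 2) Fn where
  carrier := {f | TZ f}
  add_mem' := by
    intro f g hf hg l₁ i j l₂
    simp only [Pi.add_apply, Finset.sum_add_distrib]
    rw [hf, hg, add_zero]
  zero_mem' := by intro l₁ i j l₂; simp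
  smul_mem' := by
    intro r f hf l₁ i j l₂
    simp only [Pi.smul_apply, ← Finset.smul_sum]
    rw [hf, smul_zero]

/-- the module `W` -/
abbrev W : Type := Wsub

theorem W_add_self (w : W) : w + w = 0 := by
  apply Subtype.ext; funext l; exact mc_add_self _

/-- underlying triple of functions -/
def und (c : Fin 3 → W) : Fin 3 → Fn := fun i => (c i : Fn)

/-- the involution on triples -/
def Zl : (Fin 3 → W) →ₗ[ZMod 2] (Fin 3 → W) where
  toFun c := fun i => ⟨Zf (und c) i, TZ_Zf (und c) (fun i => (c i).2) i⟩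
  map_add' := by
    intro c c'
    funext i
    apply Subtype.ext
    show Zf (und c + und c') i = Zf (und c) i + Zf (und c') i
    rw [Zf_add]; rfl
  map_smul' := by
    intro r c
    funext i
    apply Subtype.ext
    show Zf (r • und c) i = r • Zf (und c) i
    rw [Zf_smul]; rfl

theorem Zl_Zl (c : Fin 3 → W) : Zl (Zl c) = c := by
  funext i
  apply Subtype.ext
  show Zf (Zf (und c)) i = (c i : Fn)
  have := Zf_Zf (und c) (fun i => (c i).2)
  rw [this]
  rfl

theorem Zl_apply (c : Fin 3 → W) (i : Fin 3) (w : List Lt) :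
    ((Zl c i : W) : Fn) w = Tc (und c) i w + Cc (und c) i w := rfl

/-! ### the filtration -/

/-- `A d`: functions supported on words whose length is at most `d - 2` and has the parity
of `d` -/
def A (d : ℕ) : Submodule (ZMod 2) W where
  carrier := {f | ∀ l : List Lt, ¬ (l.length + 2 ≤ d ∧ l.length % 2 = d % 2) → (f : Fn) l = 0}
  add_mem' := by
    intro f g hf hg l hl
    show (f : Fn) l + (g : Fn) l = 0
    rw [hf l hl, hg l hl, add_zero]
  zero_mem' := by intro l _; rfl
  smul_mem' := by
    intro r f hf l hl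
    show r • (f : Fn) l = 0
    rw [hf l hl, smul_zero]

theorem mem_A {d : ℕ} {f : W} : f ∈ A d ↔
    ∀ l : List Lt, ¬ (l.length + 2 ≤ d ∧ l.length % 2 = d % 2) → (f : Fn) l = 0 := Iff.rfl

theorem A_mono2 (d : ℕ) : A d ≤ A (d + 2) := by
  intro f hf l hl
  exact hf l (by omega)

theorem A_zero : A 0 = ⊥ := by
  rw [eq_bot_iff]
  intro f hf
  rw [Submodule.mem_bot]
  apply Subtype.ext
  funext l
  exact hf l (by omega)

theorem A_one : A 1 = ⊥ := by
  rw [eq_bot_iff]
  intro f hf
  rw [Submodule.mem_bot]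
  apply Subtype.ext
  funext l
  exact hf l (by omega)

theorem Tc_zero_of {c : Fin 3 → W} {d : ℕ} (hc : ∀ i, c i ∈ A d) (i : Fin 3) (w : List Lt)
    (hw : ¬ (w.length + 1 + 2 ≤ d ∧ (w.length + 1) % 2 = d % 2)) : Tc (und c) i w = 0 := by
  unfold Tc
  refine Finset.sum_eq_zero (fun j _ => ?_)
  exact hc j ((j, i) :: w) (by simpa using hw)

theorem Zl_mem {c : Fin 3 → W} {d : ℕ} (hc : ∀ i, c i ∈ A d) (i : Fin 3) :
    Zl c i ∈ A (d + 1) := by
  intro l hl
  rw [Zl_apply, Tc_zero_of hc i l (by omega), zero_add]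
  cases l with
  | nil => rfl
  | cons p l =>
    rw [Cc_cons]
    split_ifs with h
    · have h1 : und c p.2 l = 0 := hc p.2 l (by simp only [List.length_cons] at hl; omega)
      rw [h1, zero_add]
      cases l with
      | nil => rfl
      | cons q l =>
        rw [Uc_cons]
        split_ifs with h'
        · exact Tc_zero_of hc _ _ (by simp only [List.length_cons] at hl; omega)
        · rfl
    · rfl

/-- the basic exactness property -/
theorem axiom_ex {c : Fin 3 → Fin 3 → W} {d : ℕ} (hc : ∀ i j, c i j ∈ A (d + 1))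
    (hs : ∑ i, Zl (c i) i ∈ A d) (i l : Fin 3) : Zl (c i) l ∈ A d := by
  intro w hw
  have hmem := Zl_mem (hc i) l
  by_cases hlen : w.length = d
  · rw [Zl_apply, Tc_zero_of (hc i) l w (by omega), zero_add]
    cases w with
    | nil => rfl
    | cons p w =>
      rw [Cc_cons]
      split_ifs with h
      · have := hs ((i, p.2) :: w) (by simp only [List.length_cons] at hlen ⊢; omega)
        have hsum : ((∑ i, Zl (c i) i : W) : Fn) ((i, p.2) :: w)
            = ∑ k, ((Zl (c k) k : W) : Fn) ((i, p.2) :: w) := by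
          rw [AddSubmonoidClass.coe_finsetSum, Finset.sum_apply]
        rw [hsum] at this
        rw [Finset.sum_eq_single i] at this
        · rw [Zl_apply, Tc_zero_of (hc i) i _
            (by simp only [List.length_cons] at hlen ⊢; omega), zero_add, Cc_cons] at this
          simpa using this
        · intro k _ hk
          rw [Zl_apply, Tc_zero_of (hc k) k _
            (by simp only [List.length_cons] at hlen ⊢; omega), zero_add, Cc_cons,
            if_neg hk]
        · intro h; exact absurd (Finset.mem_univ i) h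
      · rfl
  · exact hmem w (by omega)

end Pool.Agent.Lib.MP_4a5c06_al
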