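import Pool.Agent.Lib.MP_4a5c06_al.Degree

set_option autoImplicit false

namespace Pool.Agent.Lib.MP_4a5c06_al

/-- matrices over the even part -/
abbrev MR : Type := Matrix (Fin 3) (Fin 3) Rs

/-- the action of matrices on triples -/
def act (X : MR) (v : Fin 3 → W) : Fin 3 → W := fun i => ∑ j, (X i j : EW) (v j)

theorem act_apply (X : MR) (v : Fin 3 → W) (i : Fin 3) :
    act X v i = ∑ j, (X i j : EW) (v j) := rfl

theorem act_one (v : Fin 3 → W) : act 1 v = v := by
  funext i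
  rw [act_apply, Finset.sum_eq_single i]
  · rw [Matrix.one_apply_eq]; rfl
  · intro b _ hb
    rw [Matrix.one_apply_ne (Ne.symm hb)]; rfl
  · intro h; exact absurd (Finset.mem_univ _) h

theorem act_mul (X Y : MR) (v : Fin 3 → W) : act (X * Y) v = act X (act Y v) := by
  funext i
  simp only [act_apply]
  have : ∀ j, ((X * Y) i j : EW) (v j) = ∑ k, (X i k : EW) ((Y k j : EW) (v j)) := by
    intro j
    rw [Matrix.mul_apply]
    rw [AddSubmonoidClass.coe_finsetSum, LinearMap.sum_apply]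
    rfl
  simp only [this]
  rw [Finset.sum_comm]
  refine Finset.sum_congr rfl (fun k _ => ?_)
  rw [map_sum]

theorem act_inj {X Y : MR} (h : ∀ v, act X v = act Y v) : X = Y := by
  apply Matrix.ext
  intro i j
  apply Subtype.ext
  apply LinearMap.ext
  intro w
  have h1 := congrFun (h (Pi.single j w)) i
  simp only [act_apply] at h1
  rw [Finset.sum_eq_single j, Finset.sum_eq_single j] at h1
  · simpa using h1
  · intro b _ hb; simp [hb]
  · intro h; exact absurd (Finset.mem_univ _) h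
  · intro b _ hb; simp [hb]
  · intro h; exact absurd (Finset.mem_univ _) h

theorem sum3 {M : Type} [AddCommMonoid M] {i l j : Fin 3} (hil : i ≠ l) (hij : i ≠ j) (hlj : l ≠ j)
    (f : Fin 3 → M) : ∑ a, f a = f i + (f l + f j) := by
  have hu : (Finset.univ : Finset (Fin 3)) = {i, l, j} := by
    revert i l j; decide
  rw [hu, Finset.sum_insert (by simp [hil, hij]), Finset.sum_insert (by simp [hlj]),
    Finset.sum_singleton]

theorem third {i l : Fin 3} (h : i ≠ l) : ∃ j, i ≠ j ∧ l ≠ j := by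
  revert i l; decide

theorem others (i : Fin 3) : ∃ l j : Fin 3, i ≠ l ∧ i ≠ j ∧ l ≠ j := by
  revert i; decide

theorem cases3 {i l j : Fin 3} (hil : i ≠ l) (hij : i ≠ j) (hlj : l ≠ j) (a : Fin 3) :
    a = i ∨ a = l ∨ a = j := by
  revert i l j a; decide

/-- row moves -/
def Tm (i : Fin 3) (r : Fin 3 → Rs) : MR := fun a b => if a = b then 1 else if a = i then r b else 0

theorem Tm_act_self {i l j : Fin 3} (hil : i ≠ l) (hij : i ≠ j) (hlj : l ≠ j) (r : Fin 3 → Rs)
    (v : Fin 3 → W) : act (Tm i r) v i = v i + ((r l : EW) (v l) + (r j : EW) (v j)) := by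
  rw [act_apply, sum3 hil hij hlj]
  simp only [Tm, if_true, if_neg hil, if_neg hij]
  rfl

theorem Tm_act_ne {i a : Fin 3} (h : a ≠ i) (r : Fin 3 → Rs) (v : Fin 3 → W) :
    act (Tm i r) v a = v a := by
  rw [act_apply, Finset.sum_eq_single a]
  · simp only [Tm, if_true]; rfl
  · intro b _ hb
    simp only [Tm, if_neg (Ne.symm hb), if_neg h]; rfl
  · intro h; exact absurd (Finset.mem_univ _) h

theorem Rs_add_self (x : Rs) : x + x = 0 := Subtype.ext (EW_add_self x)

theorem Tm_mul_Tm (i : Fin 3) (r s : Fin 3 → Rs) : Tm i r * Tm i s = Tm i (r + s) := by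
  obtain ⟨l, j, hil, hij, hlj⟩ := others i
  apply act_inj
  intro v
  rw [act_mul]
  funext a
  rcases cases3 hil hij hlj a with rfl | rfl | rfl
  · rw [Tm_act_self hil hij hlj, Tm_act_self hil hij hlj, Tm_act_self hil hij hlj,
      Tm_act_ne (Ne.symm hil), Tm_act_ne (Ne.symm hij)]
    simp only [Pi.add_apply]
    change _ = _ + (((r l : EW) + (s l : EW)) (v l) + ((r j : EW) + (s j : EW)) (v j))
    simp only [LinearMap.add_apply]
    abel
  · rw [Tm_act_ne (Ne.symm hil), Tm_act_ne (Ne.symm hil), Tm_act_ne (Ne.symm hil)]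
  · rw [Tm_act_ne (Ne.symm hij), Tm_act_ne (Ne.symm hij), Tm_act_ne (Ne.symm hij)]

theorem Tm_zero (i : Fin 3) : Tm i 0 = 1 := by
  apply Matrix.ext
  intro a b
  by_cases h : a = b
  · subst h; simp [Tm]
  · simp [Tm, h]

theorem Tm_sq (i : Fin 3) (r : Fin 3 → Rs) : Tm i r * Tm i r = 1 := by
  rw [Tm_mul_Tm]
  have : r + r = 0 := funext fun a => Rs_add_self (r a)
  rw [this, Tm_zero]

/-- row moves as units -/
def Tu (i : Fin 3) (r : Fin 3 → Rs) : MRˣ := ⟨Tm i r, Tm i r, Tm_sq i r, Tm_sq i r⟩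

@[simp] theorem Tu_val (i : Fin 3) (r : Fin 3 → Rs) : (Tu i r : MR) = Tm i r := rfl

theorem Tu_mul_Tu (i : Fin 3) (r s : Fin 3 → Rs) : Tu i r * Tu i s = Tu i (r + s) :=
  Units.ext (Tm_mul_Tm i r s)

theorem Tu_sq (i : Fin 3) (r : Fin 3 → Rs) : Tu i r * Tu i r = 1 := Units.ext (Tm_sq i r)

theorem Tu_inv (i : Fin 3) (r : Fin 3 → Rs) : (Tu i r)⁻¹ = Tu i r := by
  rw [inv_eq_iff_mul_eq_one]; exact Tu_sq i r

/-- permutation moves -/
def Pm (σ : Equiv.Perm (Fin 3)) : MR := fun a b => if b = σ.symm a then 1 else 0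

theorem Pm_act (σ : Equiv.Perm (Fin 3)) (v : Fin 3 → W) (a : Fin 3) :
    act (Pm σ) v a = v (σ.symm a) := by
  rw [act_apply, Finset.sum_eq_single (σ.symm a)]
  · simp only [Pm, if_true]; rfl
  · intro b _ hb
    simp only [Pm, if_neg hb]; rfl
  · intro h; exact absurd (Finset.mem_univ _) h

theorem Pm_mul (σ τ : Equiv.Perm (Fin 3)) : Pm σ * Pm τ = Pm (σ * τ) := by
  apply act_inj
  intro v
  funext a
  rw [act_mul, Pm_act, Pm_act, Pm_act]
  rfl

theorem Pm_one : Pm 1 = 1 := by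
  apply act_inj
  intro v
  funext a
  rw [Pm_act, act_one]
  rfl

/-- permutation moves as units -/
def Pu (σ : Equiv.Perm (Fin 3)) : MRˣ :=
  ⟨Pm σ, Pm σ⁻¹, by rw [Pm_mul, mul_inv_cancel, Pm_one], by rw [Pm_mul, inv_mul_cancel, Pm_one]⟩

@[simp] theorem Pu_val (σ : Equiv.Perm (Fin 3)) : (Pu σ : MR) = Pm σ := rfl

/-- conjugation of a row move by a permutation -/
theorem Pu_mul_Tu (σ : Equiv.Perm (Fin 3)) (i : Fin 3) (r : Fin 3 → Rs) :
    Pu σ * Tu i r = Tu (σ i) (fun b => r (σ.symm b)) * Pu σ := by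
  apply Units.ext
  show Pm σ * Tm i r = Tm (σ i) (fun b => r (σ.symm b)) * Pm σ
  apply act_inj
  intro v
  obtain ⟨l, j, hil, hij, hlj⟩ := others i
  have hil' : σ i ≠ σ l := fun h => hil (σ.injective h)
  have hij' : σ i ≠ σ j := fun h => hij (σ.injective h)
  have hlj' : σ l ≠ σ j := fun h => hlj (σ.injective h)
  funext a
  rw [act_mul, act_mul, Pm_act]
  rcases cases3 hil' hij' hlj' a with rfl | rfl | rfl
  · rw [Tm_act_self hil' hij' hlj', Equiv.symm_apply_apply, Tm_act_self hil hij hlj]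
    simp only [Pm_act, Equiv.symm_apply_apply]
  · rw [Tm_act_ne (Ne.symm hil'), Pm_act, Equiv.symm_apply_apply, Tm_act_ne (Ne.symm hil)]
  · rw [Tm_act_ne (Ne.symm hij'), Pm_act, Equiv.symm_apply_apply, Tm_act_ne (Ne.symm hij)]

/-- conjugation of a row move by another row move -/
theorem conj_move {i l : Fin 3} (hil : i ≠ l) (r s : Fin 3 → Rs) (hs : s i = 0) :
    Tu l s * Tu i r * Tu l s = Tu i (fun b => if b = l then r b else r b + r l * s b) := by
  apply Units.ext
  show Tm l s * Tm i r * Tm l s = Tm i (fun b => if b = l then r b else r b + r l * s b)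
  obtain ⟨j, hij, hlj⟩ := third hil
  apply act_inj
  intro v
  rw [act_mul, act_mul]
  funext a
  rcases cases3 hil hij hlj a with h | h | h <;> rw [h]
  · rw [Tm_act_ne hil, Tm_act_self hil hij hlj, Tm_act_self hil hij hlj, Tm_act_ne hil,
      Tm_act_ne (Ne.symm hlj), Tm_act_self (Ne.symm hil) hlj hij, if_pos rfl,
      if_neg (Ne.symm hlj), hs]
    change _ + ((r l : EW) (v l + (0 + (s j : EW) (v j))) + (r j : EW) (v j)) =
      _ + (_ + ((r j : EW) + (r l : EW) * (s j : EW)) (v j))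
    simp only [LinearMap.add_apply, Module.End.mul_apply, map_add, map_zero]
    abel
  · rw [Tm_act_self (Ne.symm hil) hlj hij, Tm_act_ne (Ne.symm hil), Tm_act_ne (Ne.symm hij),
      Tm_act_self (Ne.symm hil) hlj hij, Tm_act_ne (Ne.symm hlj), Tm_act_ne (Ne.symm hil), hs]
    change v l + (0 + (s j : EW) (v j)) + (0 + (s j : EW) (v j)) = v l
    rw [zero_add, add_assoc, W_add_self, add_zero]
  · rw [Tm_act_ne (Ne.symm hlj), Tm_act_ne (Ne.symm hij), Tm_act_ne (Ne.symm hij),
      Tm_act_ne (Ne.symm hlj)]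

/-! ### nice vectors -/

/-- basic vectors -/
def v0 (k : Fin 3) : W :=
  ⟨fun l => if l = [] then Pi.single k 1 else 0, by
    intro l₁ i j l₂
    refine Finset.sum_eq_zero (fun a _ => ?_)
    exact if_neg (by simp)⟩

theorem v0_nil (k : Fin 3) : (v0 k : Fn) [] = Pi.single k 1 := rfl

theorem v0_ne (k : Fin 3) : v0 k ≠ 0 := by
  intro h
  have h1 : (v0 k : Fn) [] = 0 := by rw [h]; rfl
  rw [v0_nil] at h1
  have h2 := congrFun h1 k
  simp at h2

instance : Nontrivial W := ⟨⟨v0 0, 0, v0_ne 0⟩⟩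

/-- bounded and independent -/
def Nice (v : Fin 3 → W) : Prop :=
  (∀ i, Bd (v i)) ∧ ∀ r : Fin 3 → Rs, ∑ i, (r i : EW) (v i) = 0 → r = 0

theorem Nice.act {v : Fin 3 → W} (h : Nice v) (X : MRˣ) : Nice (act (X : MR) v) := by
  constructor
  · intro i
    exact Bd.sum _ _ (fun j _ => (h.1 j).act (Subtype.property _))
  · intro r hr
    have h1 : ∑ i, (r i : EW) (MP_4a5c06_al.act (X : MR) v i) =
        ∑ j, ((Matrix.vecMul r (X : MR)) j : EW) (v j) := by
      simp only [act_apply, map_sum]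
      rw [Finset.sum_comm]
      refine Finset.sum_congr rfl (fun j _ => ?_)
      simp only [Matrix.vecMul, dotProduct]
      rw [AddSubmonoidClass.coe_finsetSum, LinearMap.sum_apply]
      rfl
    rw [h1] at hr
    have h2 := h.2 _ hr
    have h3 : Matrix.vecMul (Matrix.vecMul r (X : MR)) ((X⁻¹ : MRˣ) : MR) = r := by
      rw [Matrix.vecMul_vecMul, ← Units.val_mul, mul_inv_cancel, Units.val_one, Matrix.vecMul_one]
    rw [h2, Matrix.zero_vecMul] at h3
    exact h3.symm

theorem Nice.ne_zero {v : Fin 3 → W} (h : Nice v) (i : Fin 3) : v i ≠ 0 := by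
  intro h0
  have := h.2 (Pi.single i 1) (by
    rw [Finset.sum_eq_single i]
    · rw [h0, map_zero]
    · intro b _ hb; simp [hb]
    · intro h; exact absurd (Finset.mem_univ _) h)
  have h1 := congrFun this i
  rw [Pi.single_eq_same] at h1
  have h2 : (1 : EW) = 0 := congrArg Subtype.val h1
  exact absurd h2 one_ne_zero

/-- total degree -/
noncomputable def D (v : Fin 3 → W) : ℕ := ∑ i, dl (v i)

theorem D_eq {i l j : Fin 3} (hil : i ≠ l) (hij : i ≠ j) (hlj : l ≠ j) (v : Fin 3 → W) :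
    D v = dl (v i) + (dl (v l) + dl (v j)) := sum3 hil hij hlj _

theorem D_perm (σ : Equiv.Perm (Fin 3)) (v : Fin 3 → W) : D (act (Pm σ) v) = D v := by
  unfold D
  simp only [Pm_act]
  exact Equiv.sum_comp σ.symm (fun i => dl (v i))

/-- decreasing move -/
def dec (i : Fin 3) (r : Fin 3 → Rs) (w : Fin 3 → W) : Prop := dl (act (Tm i r) w i) < dl (w i)
/-- non increasing move -/
def ndec (i : Fin 3) (r : Fin 3 → Rs) (w : Fin 3 → W) : Prop := dl (act (Tm i r) w i) ≤ dl (w i)

theorem dec.ndec {i : Fin 3} {r : Fin 3 → Rs} {w : Fin 3 → W} (h : dec i r w) : ndec i r w :=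
  le_of_lt h

theorem D_move (i : Fin 3) (r : Fin 3 → Rs) (w : Fin 3 → W) :
    D (act (Tm i r) w) + dl (w i) = D w + dl (act (Tm i r) w i) := by
  obtain ⟨l, j, hil, hij, hlj⟩ := others i
  rw [D_eq hil hij hlj, D_eq hil hij hlj, Tm_act_ne (Ne.symm hil), Tm_act_ne (Ne.symm hij)]
  omega

theorem dec_iff {i : Fin 3} {r : Fin 3 → Rs} {w : Fin 3 → W} :
    dec i r w ↔ D (act (Tm i r) w) < D w := by
  have := D_move i r w
  unfold dec
  omega

theorem ndec_iff {i : Fin 3} {r : Fin 3 → Rs} {w : Fin 3 → W} :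
    ndec i r w ↔ D (act (Tm i r) w) ≤ D w := by
  have := D_move i r w
  unfold ndec
  omega

/-- moves -/
inductive Mv : MRˣ → Prop
  | T (i : Fin 3) (r : Fin 3 → Rs) : Mv (Tu i r)
  | P (σ : Equiv.Perm (Fin 3)) : Mv (Pu σ)

/-- connection through smaller vectors -/
inductive Conn (w : Fin 3 → W) : MRˣ → MRˣ → Prop
  | refl (a : MRˣ) : Conn w a a
  | step (a M b : MRˣ) : D (act (a : MR) w) < D w → Mv M → Conn w (M * a) b → Conn w a b

theorem Conn.trans {w : Fin 3 → W} {a b c : MRˣ} (h1 : Conn w a b) (h2 : Conn w b c) :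
    Conn w a c := by
  induction h1 with
  | refl a => exact h2
  | step a M b ha hM _ ih => exact Conn.step a M c ha hM (ih h2)

theorem connSame {w : Fin 3 → W} {i : Fin 3} {r s : Fin 3 → Rs} (hT : dec i r w) :
    Conn w (Tu i r) (Tu i s) := by
  refine Conn.step _ (Tu i (r + s)) _ (dec_iff.1 hT) (Mv.T _ _) ?_
  have : Tu i (r + s) * Tu i r = Tu i s := by
    rw [Tu_mul_Tu]
    congr 1
    funext a
    simp only [Pi.add_apply]
    rw [add_comm (r a), add_assoc, Rs_add_self, add_zero]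
  rw [this]
  exact Conn.refl _

theorem connA {w : Fin 3 → W} {i l : Fin 3} (hil : i ≠ l) {r s : Fin 3 → Rs} (hs : s i = 0)
    (hT : dec i r w) (hS : ndec l s w) : Conn w (Tu i r) (Tu l s) := by
  obtain ⟨j, hij, hlj⟩ := third hil
  refine Conn.step _ (Tu l s) _ (dec_iff.1 hT) (Mv.T _ _) ?_
  refine Conn.step _ (Tu i (fun b => if b = l then r b else r b + r l * s b)) _ ?_ (Mv.T _ _) ?_
  · have e1 : act (Tm l s * Tm i r) w i = act (Tm i r) w i := by
      rw [act_mul, Tm_act_ne hil]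
    have e2 : act (Tm l s * Tm i r) w l = act (Tm l s) w l := by
      rw [act_mul, Tm_act_self (Ne.symm hil) hlj hij, Tm_act_self (Ne.symm hil) hlj hij,
        Tm_act_ne (Ne.symm hil), Tm_act_ne (Ne.symm hij), hs]
      rfl
    have e3 : act (Tm l s * Tm i r) w j = w j := by
      rw [act_mul, Tm_act_ne (Ne.symm hlj), Tm_act_ne (Ne.symm hij)]
    show D (act (Tm l s * Tm i r) w) < D w
    rw [D_eq hil hij hlj, D_eq hil hij hlj, e1, e2, e3]
    unfold dec at hT
    unfold ndec at hS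
    omega
  · rw [← conj_move hil r s hs]
    have : Tu l s * Tu i r * Tu l s * (Tu l s * Tu i r) = Tu l s := by
      calc Tu l s * Tu i r * Tu l s * (Tu l s * Tu i r)
          = Tu l s * Tu i r * (Tu l s * Tu l s) * Tu i r := by group
        _ = Tu l s * (Tu i r * Tu i r) := by rw [Tu_sq]; group
        _ = Tu l s := by rw [Tu_sq, mul_one]
    rw [this]
    exact Conn.refl _

theorem connB {w : Fin 3 → W} {i l : Fin 3} (hil : i ≠ l) {r s : Fin 3 → Rs} (hr : r l = 0)
    (hT : dec i r w) (hS : ndec l s w) : Conn w (Tu i r) (Tu l s) := by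
  obtain ⟨j, hij, hlj⟩ := third hil
  refine Conn.step _ (Tu l (fun b => if b = i then s b else s b + s i * r b)) _
    (dec_iff.1 hT) (Mv.T _ _) ?_
  rw [← conj_move (Ne.symm hil) s r hr]
  have : Tu i r * Tu l s * Tu i r * Tu i r = Tu i r * Tu l s := by
    rw [mul_assoc _ (Tu i r) (Tu i r), Tu_sq, mul_one]
  rw [this]
  refine Conn.step _ (Tu i r) _ ?_ (Mv.T _ _) ?_
  · have e1 : act (Tm i r * Tm l s) w l = act (Tm l s) w l := by
      rw [act_mul, Tm_act_ne (Ne.symm hil)]
    have e2 : act (Tm i r * Tm l s) w i = act (Tm i r) w i := by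
      rw [act_mul, Tm_act_self hil hij hlj, Tm_act_self hil hij hlj,
        Tm_act_ne hil, Tm_act_ne (Ne.symm hlj), hr]
      rfl
    have e3 : act (Tm i r * Tm l s) w j = w j := by
      rw [act_mul, Tm_act_ne (Ne.symm hij), Tm_act_ne (Ne.symm hlj)]
    show D (act (Tm i r * Tm l s) w) < D w
    rw [D_eq hil hij hlj, D_eq hil hij hlj, e1, e2, e3]
    unfold dec at hT
    unfold ndec at hS
    omega
  · rw [← mul_assoc, Tu_sq, one_mul]
    exact Conn.refl _

/-- swapping case -/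
theorem connC {w : Fin 3 → W} {i l : Fin 3} (hil : i ≠ l) {r s : Fin 3 → Rs} (hr : r l = 1)
    (hs : s i = 1) (he : dl (w i) = dl (w l)) (hT : dec i r w) :
    Conn w (Tu i r) (Tu l s) := by
  obtain ⟨j, hij, hlj⟩ := third hil
  set σ : Equiv.Perm (Fin 3) := Equiv.swap i l with hσ
  have hσi : σ.symm i = l := by rw [hσ, Equiv.symm_swap, Equiv.swap_apply_left]
  have hσl : σ.symm l = i := by rw [hσ, Equiv.symm_swap, Equiv.swap_apply_right]
  have hσj : σ.symm j = j := by
    rw [hσ, Equiv.symm_swap, Equiv.swap_apply_of_ne_of_ne (Ne.symm hij) (Ne.symm hlj)]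
  have hTi : act (Tm i r) w i = w i + (w l + (r j : EW) (w j)) := by
    rw [Tm_act_self hil hij hlj, hr]; rfl
  -- the vector after the three first steps
  have f1 : act (Pm σ * Tm i r) w i = w l := by
    rw [act_mul, Pm_act, hσi, Tm_act_ne (Ne.symm hil)]
  have f2 : act (Pm σ * Tm i r) w l = w i + (w l + (r j : EW) (w j)) := by
    rw [act_mul, Pm_act, hσl, hTi]
  have f3 : act (Pm σ * Tm i r) w j = w j := by
    rw [act_mul, Pm_act, hσj, Tm_act_ne (Ne.symm hij)]
  have g1 : act (Tm i r * (Pm σ * Tm i r)) w i = w i := by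
    rw [act_mul, Tm_act_self hil hij hlj, f1, f2, f3, hr]
    change w l + ((w i + (w l + (r j : EW) (w j))) + (r j : EW) (w j)) = w i
    have h1 := W_add_self (w l)
    have h2 := W_add_self ((r j : EW) (w j))
    calc w l + ((w i + (w l + (r j : EW) (w j))) + (r j : EW) (w j))
        = w i + (w l + w l) + ((r j : EW) (w j) + (r j : EW) (w j)) := by abel
      _ = w i := by rw [h1, h2, add_zero, add_zero]
  have g2 : act (Tm i r * (Pm σ * Tm i r)) w l = w i + (w l + (r j : EW) (w j)) := by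
    rw [act_mul, Tm_act_ne (Ne.symm hil), f2]
  have g3 : act (Tm i r * (Pm σ * Tm i r)) w j = w j := by
    rw [act_mul, Tm_act_ne (Ne.symm hij), f3]
  have hid : Tu l (fun b => if b = i then 0 else s b + r b) * (Tu i r * (Pu σ * Tu i r))
      = Tu l s := by
    apply Units.ext
    show Tm l (fun b => if b = i then 0 else s b + r b) * (Tm i r * (Pm σ * Tm i r)) = Tm l s
    apply act_inj
    intro w
    have hTi : act (Tm i r) w i = w i + (w l + (r j : EW) (w j)) := by
      rw [Tm_act_self hil hij hlj, hr]; rfl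
    have f1 : act (Pm σ * Tm i r) w i = w l := by
      rw [act_mul, Pm_act, hσi, Tm_act_ne (Ne.symm hil)]
    have f2 : act (Pm σ * Tm i r) w l = w i + (w l + (r j : EW) (w j)) := by
      rw [act_mul, Pm_act, hσl, hTi]
    have f3 : act (Pm σ * Tm i r) w j = w j := by
      rw [act_mul, Pm_act, hσj, Tm_act_ne (Ne.symm hij)]
    have g1 : act (Tm i r * (Pm σ * Tm i r)) w i = w i := by
      rw [act_mul, Tm_act_self hil hij hlj, f1, f2, f3, hr]
      change w l + ((w i + (w l + (r j : EW) (w j))) + (r j : EW) (w j)) = w i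
      have h1 := W_add_self (w l)
      have h2 := W_add_self ((r j : EW) (w j))
      calc w l + ((w i + (w l + (r j : EW) (w j))) + (r j : EW) (w j))
          = w i + (w l + w l) + ((r j : EW) (w j) + (r j : EW) (w j)) := by abel
        _ = w i := by rw [h1, h2, add_zero, add_zero]
    have g2 : act (Tm i r * (Pm σ * Tm i r)) w l = w i + (w l + (r j : EW) (w j)) := by
      rw [act_mul, Tm_act_ne (Ne.symm hil), f2]
    have g3 : act (Tm i r * (Pm σ * Tm i r)) w j = w j := by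
      rw [act_mul, Tm_act_ne (Ne.symm hij), f3]
    rw [act_mul]
    funext a
    rcases cases3 hil hij hlj a with h | h | h <;> rw [h]
    · rw [Tm_act_ne hil, g1, Tm_act_ne hil]
    · rw [Tm_act_self (Ne.symm hil) hlj hij, g1, g2, g3, if_pos rfl, if_neg (Ne.symm hij),
        Tm_act_self (Ne.symm hil) hlj hij, hs]
      change (w i + (w l + (r j : EW) (w j))) + (0 + ((s j : EW) + (r j : EW)) (w j)) =
        w l + (w i + (s j : EW) (w j))
      have h2 := W_add_self ((r j : EW) (w j))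
      calc (w i + (w l + (r j : EW) (w j))) + (0 + ((s j : EW) + (r j : EW)) (w j))
          = w l + (w i + (s j : EW) (w j)) + ((r j : EW) (w j) + (r j : EW) (w j)) := by
            rw [LinearMap.add_apply]; abel
        _ = _ := by rw [h2, add_zero]
    · rw [Tm_act_ne (Ne.symm hlj), g3, Tm_act_ne (Ne.symm hlj)]
  have hd : dl (act (Tm i r) w i) < dl (w i) := hT
  rw [hTi] at hd
  refine Conn.step _ (Pu σ) _ (dec_iff.1 hT) (Mv.P _) ?_
  refine Conn.step _ (Tu i r) _ ?_ (Mv.T _ _) ?_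
  · show D (act (Pm σ * Tm i r) w) < D w
    rw [D_eq hil hij hlj, D_eq hil hij hlj, f1, f2, f3]
    omega
  refine Conn.step _ (Tu l (fun b => if b = i then 0 else s b + r b)) _ ?_ (Mv.T _ _) ?_
  · show D (act (Tm i r * (Pm σ * Tm i r)) w) < D w
    rw [D_eq hil hij hlj, D_eq hil hij hlj, g1, g2, g3]
    omega
  rw [hid]
  exact Conn.refl _

/-- good moves -/
def good (i : Fin 3) (r : Fin 3 → Rs) (w : Fin 3 → W) : Prop :=
  ∀ b, b ≠ i → dl ((r b : EW) (w b)) ≤ dl (w i)

theorem le_of_smul {v : W} (hv : Bd v) (h0 : v ≠ 0) {x : Rs} (hx : x ≠ 0) {k : ℕ}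
    (hk : dl ((x : EW) v) ≤ k) : dl v ≤ k := by
  have h1 : ((x : EW) v) ∈ A (2 * k) := ((hv.act x.2).le_iff).1 hk
  have h2 := single_strict (hv.Deg h0) x.2 h1
  unfold Gi at h2
  split_ifs at h2 with h
  · have := dl_pos hv h0
    omega
  · exact absurd (Subtype.ext ((Submodule.mem_bot _).1 h2)) hx

theorem one_of_smul {v : W} (hv : Bd v) (h0 : v ≠ 0) {x : Rs} (hx : x ≠ 0)
    (hk : dl ((x : EW) v) ≤ dl v) : x = 1 := by
  have h1 : ((x : EW) v) ∈ A (2 * dl v) := ((hv.act x.2).le_iff).1 hk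
  have hp := dl_pos hv h0
  have h2 := single_scalar (hv.Deg h0) x.2 (by rwa [show dl v - 1 + 1 = dl v by omega])
  obtain ⟨c, hc⟩ := mem_G0.1 h2
  have : c ≠ 0 := by
    rintro rfl
    apply hx
    apply Subtype.ext
    rw [hc, zero_smul]; rfl
  apply Subtype.ext
  rw [hc, zmod2_eq_one this, one_smul]; rfl

theorem goodgood {w : Fin 3 → W} (hn : Nice w) {i l : Fin 3} {r s : Fin 3 → Rs}
    (hT : dec i r w) (hgT : good i r w) (hS : ndec l s w) (hgS : good l s w) :
    Conn w (Tu i r) (Tu l s) := by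
  by_cases hil : i = l
  · subst hil; exact connSame hT
  by_cases hr : r l = 0
  · exact connB hil hr hT hS
  by_cases hs : s i = 0
  · exact connA hil hs hT hS
  have h1 := le_of_smul (hn.1 l) (hn.ne_zero l) hr (hgT l (Ne.symm hil))
  have h2 := le_of_smul (hn.1 i) (hn.ne_zero i) hs (hgS i hil)
  have he : dl (w i) = dl (w l) := le_antisymm h2 h1
  have hr1 := one_of_smul (hn.1 l) (hn.ne_zero l) hr (he ▸ hgT l (Ne.symm hil))
  have hs1 := one_of_smul (hn.1 i) (hn.ne_zero i) hs (he ▸ hgS i hil)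
  exact connC hil hr1 hs1 he hT

theorem sum_cancel {a b c : W} (h : a + b = c) : b = a + c := by
  rw [← h, ← add_assoc, W_add_self, zero_add]

theorem toGood_aux {w : Fin 3 → W} (hn : Nice w) {l j i : Fin 3} (hil : i ≠ l) (hij : i ≠ j)
    (hlj : l ≠ j) (hz : ∃ z ∈ Rs, w l + z (w j) ∈ A (2 * (dl (w l) - 1))) :
    ∃ (b : Fin 3) (z : Fin 3 → Rs), i ≠ b ∧ z i = 0 ∧ dec b z w ∧ good b z w := by
  obtain ⟨z, hz, hzm⟩ := hz
  have hp := dl_pos (hn.1 l) (hn.ne_zero l)
  have hbd := (hn.1 l).add ((hn.1 j).act hz)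
  refine ⟨l, fun b => if b = j then ⟨z, hz⟩ else 0, hil, if_neg hij, ?_, ?_⟩
  · unfold dec
    rw [Tm_act_self hlj (Ne.symm hil) (Ne.symm hij)]
    rw [if_pos rfl, if_neg hij]
    change dl (w l + (z (w j) + 0)) < _
    rw [add_zero]
    have := (hbd.le_iff).2 hzm
    omega
  · intro b hb
    rcases cases3 hil hij hlj b with h | h | h <;> rw [h]
    · dsimp only
      rw [if_neg hij]
      change dl 0 ≤ _
      rw [(Bd.zero.le_iff)]
      exact Submodule.zero_mem _
    · exact absurd h hb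
    · dsimp only
      rw [if_pos rfl]
      change dl (z (w j)) ≤ _
      rw [(((hn.1 j).act hz).le_iff)]
      rw [sum_cancel (a := w l) (b := z (w j)) rfl]
      exact Submodule.add_mem _ (hn.1 l).mem (A_mono (by omega) hzm)

theorem toGood {w : Fin 3 → W} (hn : Nice w) {i : Fin 3} {r : Fin 3 → Rs} (hT : ndec i r w) :
    good i r w ∨ ∃ (b : Fin 3) (z : Fin 3 → Rs), i ≠ b ∧ z i = 0 ∧ dec b z w ∧ good b z w := by
  obtain ⟨l, j, hil, hij, hlj⟩ := others i
  unfold ndec at hT
  rw [Tm_act_self hil hij hlj] at hT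
  have hbl := (hn.1 l).act (r l).2
  have hbj := (hn.1 j).act (r j).2
  have h1 := (((hn.1 i).add (hbl.add hbj)).le_iff).1 hT
  have h2 : (r l : EW) (w l) + (r j : EW) (w j) ∈ A (2 * dl (w i)) := by
    rw [sum_cancel (a := w i) (b := (r l : EW) (w l) + (r j : EW) (w j)) rfl]
    exact Submodule.add_mem _ (hn.1 i).mem h1
  have hpl := dl_pos (hn.1 l) (hn.ne_zero l)
  have hpj := dl_pos (hn.1 j) (hn.ne_zero j)
  rcases pair_lemma ((hn.1 l).Deg (hn.ne_zero l)) ((hn.1 j).Deg (hn.ne_zero j)) (r l).2 (r j).2 h2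
    with ⟨ha, hb⟩ | ha | ha
  · left
    intro b hb'
    rcases cases3 hil hij hlj b with h | h | h <;> rw [h]
    · exact absurd h hb'
    · rw [hbl.le_iff]
      exact Gi_act ha (by rw [show dl (w l) - 1 + 1 = dl (w l) by omega]; exact (hn.1 l).mem)
    · rw [hbj.le_iff]
      exact Gi_act hb (by rw [show dl (w j) - 1 + 1 = dl (w j) by omega]; exact (hn.1 j).mem)
  · right
    exact toGood_aux hn hil hij hlj ha
  · right
    exact toGood_aux hn hij hil (Ne.symm hlj) ha

theorem peak {w : Fin 3 → W} (hn : Nice w) {i l : Fin 3} {r s : Fin 3 → Rs}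
    (hT : dec i r w) (hS : ndec l s w) : Conn w (Tu i r) (Tu l s) := by
  have h1 : ∃ (b : Fin 3) (z : Fin 3 → Rs), dec b z w ∧ good b z w ∧
      Conn w (Tu i r) (Tu b z) := by
    rcases toGood hn hT.ndec with h | ⟨b, z, hib, hz, hd, hg⟩
    · exact ⟨i, r, hT, h, Conn.refl _⟩
    · exact ⟨b, z, hd, hg, connA hib hz hT hd.ndec⟩
  have h2 : ∃ (b : Fin 3) (z : Fin 3 → Rs), ndec b z w ∧ good b z w ∧
      Conn w (Tu b z) (Tu l s) := by
    rcases toGood hn hS with h | ⟨b, z, hib, hz, hd, hg⟩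
    · exact ⟨l, s, hS, h, Conn.refl _⟩
    · exact ⟨b, z, hd.ndec, hg, connB (Ne.symm hib) hz hd hS⟩
  obtain ⟨b, z, hd, hg, hc⟩ := h1
  obtain ⟨b', z', hd', hg', hc'⟩ := h2
  exact hc.trans ((goodgood hn hd hg hd' hg').trans hc')

end Pool.Agent.Lib.MP_4a5c06_al
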