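import Pool.Agent.Lib.MP_4a5c06_al.Model

set_option autoImplicit false

namespace Pool.Agent.Lib.MP_4a5c06_al

abbrev EW : Type := Module.End (ZMod 2) W

/-- matrix coefficients of the involution -/
def zt (i j : Fin 3) : EW :=
  (LinearMap.proj i) ∘ₗ Zl ∘ₗ (LinearMap.single (ZMod 2) (fun _ : Fin 3 => W) j)

theorem zt_apply (i j : Fin 3) (w : W) : zt i j w = Zl (Pi.single j w) i := rfl

theorem Zl_eq (c : Fin 3 → W) (i : Fin 3) : Zl c i = ∑ j, zt i j (c j) := by
  have h : c = ∑ j, Pi.single j (c j) := (Finset.univ_sum_single c).symm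
  conv_lhs => rw [h]
  rw [map_sum, Finset.sum_apply]
  rfl

theorem zt_zt (i k : Fin 3) : ∑ j, zt i j * zt j k = if i = k then 1 else 0 := by
  apply LinearMap.ext
  intro w
  rw [LinearMap.sum_apply]
  have h : ∀ j, (zt i j * zt j k) w = zt i j (Zl (Pi.single k w) j) := fun j => rfl
  simp only [h]
  rw [← Zl_eq, Zl_Zl]
  by_cases hik : i = k
  · subst hik; simp
  · rw [if_neg hik]; simp [hik]

/-- products of length exactly `n` (hence also shorter ones of the same parity) -/
def G : ℕ → Submodule (ZMod 2) EW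
  | 0 => Submodule.span (ZMod 2) {1}
  | n + 1 => Submodule.span (ZMod 2) {x | ∃ (i j : Fin 3), ∃ g ∈ G n, x = zt i j * g}

theorem one_mem_G0 : (1 : EW) ∈ G 0 := Submodule.subset_span rfl

theorem mem_G0 {x : EW} : x ∈ G 0 ↔ ∃ r : ZMod 2, x = r • 1 := by
  show x ∈ Submodule.span (ZMod 2) {1} ↔ _
  rw [Submodule.mem_span_singleton]
  exact ⟨fun ⟨r, h⟩ => ⟨r, h.symm⟩, fun ⟨r, h⟩ => ⟨r, h.symm⟩⟩

theorem zt_mul_mem {n : ℕ} {g : EW} (hg : g ∈ G n) (i j : Fin 3) : zt i j * g ∈ G (n + 1) :=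
  Submodule.subset_span ⟨i, j, g, hg, rfl⟩

theorem G_decomp {n : ℕ} {x : EW} (hx : x ∈ G (n + 1)) :
    ∃ u : Fin 3 → Fin 3 → EW, (∀ i j, u i j ∈ G n) ∧ x = ∑ i, ∑ j, zt i j * u i j := by
  change x ∈ Submodule.span (ZMod 2) {x | ∃ (i j : Fin 3), ∃ g ∈ G n, x = zt i j * g} at hx
  induction hx using Submodule.span_induction with
  | mem x hx =>
    obtain ⟨i, j, g, hg, rfl⟩ := hx
    refine ⟨fun a b => if a = i ∧ b = j then g else 0, ?_, ?_⟩
    · intro a b
      dsimp only
      split_ifs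
      · exact hg
      · exact Submodule.zero_mem _
    · rw [Finset.sum_eq_single i, Finset.sum_eq_single j]
      · simp
      · intro b _ hb; simp [hb]
      · intro h; exact absurd (Finset.mem_univ _) h
      · intro a _ ha; exact Finset.sum_eq_zero (fun b _ => by simp [ha])
      · intro h; exact absurd (Finset.mem_univ _) h
  | zero => exact ⟨fun _ _ => 0, fun _ _ => Submodule.zero_mem _, by simp⟩
  | add x y _ _ hx hy =>
    obtain ⟨u, hu, rfl⟩ := hx
    obtain ⟨u', hu', rfl⟩ := hy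
    refine ⟨fun i j => u i j + u' i j, fun i j => Submodule.add_mem _ (hu i j) (hu' i j), ?_⟩
    simp only [mul_add, Finset.sum_add_distrib]
  | smul r x _ hx =>
    obtain ⟨u, hu, rfl⟩ := hx
    refine ⟨fun i j => r • u i j, fun i j => Submodule.smul_mem _ r (hu i j), ?_⟩
    simp only [Finset.smul_sum, mul_smul_comm]

theorem G_mono2 (n : ℕ) : G n ≤ G (n + 2) := by
  intro g hg
  have h := zt_zt 0 0
  rw [if_pos rfl] at h
  have h2 : g = ∑ j, zt 0 j * (zt j 0 * g) := by
    calc g = (∑ j, zt 0 j * zt j 0) * g := by rw [h, one_mul]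
      _ = _ := by rw [Finset.sum_mul]; simp only [mul_assoc]
  rw [h2]
  exact Submodule.sum_mem _ (fun j _ => zt_mul_mem (zt_mul_mem hg j 0) 0 j)

theorem G_mul {m n : ℕ} {x y : EW} (hx : x ∈ G m) (hy : y ∈ G n) : x * y ∈ G (m + n) := by
  induction m generalizing x with
  | zero =>
    obtain ⟨r, rfl⟩ := mem_G0.1 hx
    rw [smul_mul_assoc, one_mul, Nat.zero_add]
    exact Submodule.smul_mem _ _ hy
  | succ m ih =>
    obtain ⟨u, hu, rfl⟩ := G_decomp hx
    rw [Finset.sum_mul]
    refine Submodule.sum_mem _ (fun i _ => ?_)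
    rw [Finset.sum_mul]
    refine Submodule.sum_mem _ (fun j _ => ?_)
    rw [mul_assoc]
    have := zt_mul_mem (ih (hu i j)) i j
    have e : m + n + 1 = m + 1 + n := by omega
    rwa [e] at this

theorem zt_act {d : ℕ} {v : W} (hv : v ∈ A d) (i j : Fin 3) : zt i j v ∈ A (d + 1) := by
  rw [zt_apply]
  apply Zl_mem
  intro k
  by_cases hk : k = j
  · subst hk; simpa using hv
  · simp [hk]

theorem G_act {n d : ℕ} {g : EW} {v : W} (hg : g ∈ G n) (hv : v ∈ A d) : g v ∈ A (d + n) := by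
  induction n generalizing g with
  | zero =>
    obtain ⟨r, rfl⟩ := mem_G0.1 hg
    exact Submodule.smul_mem _ _ hv
  | succ m ih =>
    obtain ⟨u, hu, rfl⟩ := G_decomp hg
    rw [LinearMap.sum_apply]
    refine Submodule.sum_mem _ (fun i _ => ?_)
    rw [LinearMap.sum_apply]
    refine Submodule.sum_mem _ (fun j _ => ?_)
    exact zt_act (ih (hu i j)) i j

/-- the filtration step of coefficients for a vector of degree `d` inside degree `D` -/
def Gi (D d : ℕ) : Submodule (ZMod 2) EW := if d ≤ D then G (D - d) else ⊥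

theorem Gi_mono2 (D d : ℕ) : Gi D d ≤ Gi (D + 2) d := by
  unfold Gi
  split_ifs with h h'
  · have : D + 2 - d = (D - d) + 2 := by omega
    rw [this]; exact G_mono2 _
  · omega
  · exact bot_le
  · exact bot_le

theorem Gi_zt {D d : ℕ} {g : EW} (hg : g ∈ Gi D d) (i j : Fin 3) : zt i j * g ∈ Gi (D + 1) d := by
  unfold Gi at *
  split_ifs at hg with h
  · rw [if_pos (by omega)]
    have : D + 1 - d = (D - d) + 1 := by omega
    rw [this]
    exact zt_mul_mem hg i j
  · rw [Submodule.mem_bot] at hg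
    rw [hg, mul_zero]
    exact Submodule.zero_mem _

theorem Gi_decomp {D d : ℕ} {x : EW} (hx : x ∈ Gi (D + 1) d) (h0 : d = D + 1 → x = 0) :
    ∃ u : Fin 3 → Fin 3 → EW, (∀ i j, u i j ∈ Gi D d) ∧ x = ∑ i, ∑ j, zt i j * u i j := by
  unfold Gi at hx
  split_ifs at hx with h
  · by_cases hd : d = D + 1
    · rw [h0 hd]
      exact ⟨fun _ _ => 0, fun _ _ => Submodule.zero_mem _, by simp⟩
    · have e : D + 1 - d = (D - d) + 1 := by omega
      rw [e] at hx
      obtain ⟨u, hu, rfl⟩ := G_decomp hx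
      refine ⟨u, fun i j => ?_, rfl⟩
      unfold Gi
      rw [if_pos (by omega)]
      exact hu i j
  · rw [Submodule.mem_bot] at hx
    rw [hx]
    exact ⟨fun _ _ => 0, fun _ _ => Submodule.zero_mem _, by simp⟩

theorem Gi_act {D d : ℕ} {g : EW} {v : W} (hg : g ∈ Gi D d) (hv : v ∈ A d) : g v ∈ A D := by
  unfold Gi at hg
  split_ifs at hg with h
  · have := G_act hg hv
    have e : d + (D - d) = D := by omega
    rwa [e] at this
  · rw [Submodule.mem_bot] at hg
    rw [hg]; exact Submodule.zero_mem _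

/-- the even part -/
def Rs : Subring EW where
  carrier := {x | ∃ n, x ∈ G (2 * n)}
  mul_mem' := by
    rintro x y ⟨m, hm⟩ ⟨n, hn⟩
    refine ⟨m + n, ?_⟩
    have := G_mul hm hn
    have e : 2 * m + 2 * n = 2 * (m + n) := by ring
    rwa [e] at this
  one_mem' := ⟨0, one_mem_G0⟩
  add_mem' := by
    rintro x y ⟨m, hm⟩ ⟨n, hn⟩
    have mono : ∀ a b : ℕ, a ≤ b → G (2 * a) ≤ G (2 * b) := by
      intro a b hab
      induction b, hab using Nat.le_induction with
      | base => exact le_rfl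
      | succ b _ ih => exact ih.trans (G_mono2 _)
    exact ⟨max m n, Submodule.add_mem _ (mono _ _ (le_max_left _ _) hm)
      (mono _ _ (le_max_right _ _) hn)⟩
  zero_mem' := ⟨0, Submodule.zero_mem _⟩
  neg_mem' := by
    rintro x ⟨m, hm⟩
    exact ⟨m, Submodule.neg_mem _ hm⟩

end Pool.Agent.Lib.MP_4a5c06_al
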