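import Pool.Agent.Lib.MP_4a5c06_al.Moves

set_option autoImplicit false

namespace Pool.Agent.Lib.MP_4a5c06_al

/-- reachability with bounded total degree -/
inductive Reach (v : Fin 3 → W) (N : ℕ) : MRˣ → Prop
  | one : D v ≤ N → Reach v N 1
  | step (a M : MRˣ) : Reach v N a → Mv M → D (act ((M * a : MRˣ) : MR) v) ≤ N →
      Reach v N (M * a)

theorem Reach.le {v : Fin 3 → W} {N : ℕ} {h : MRˣ} (hR : Reach v N h) :
    D (act (h : MR) v) ≤ N := by
  cases hR with
  | one h => rw [Units.val_one, act_one]; exact h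
  | step a M _ _ h => exact h

theorem Reach.mono {v : Fin 3 → W} {N N' : ℕ} (hNN : N ≤ N') {h : MRˣ} (hR : Reach v N h) :
    Reach v N' h := by
  induction hR with
  | one h => exact Reach.one (h.trans hNN)
  | step a M _ hM h ih => exact Reach.step a M ih hM (h.trans hNN)

theorem Mv_lower {w : Fin 3 → W} {M : MRˣ} (hM : Mv M) (h : D (act (M : MR) w) ≠ D w) :
    ∃ i r, M = Tu i r := by
  cases hM with
  | T i r => exact ⟨i, r, rfl⟩
  | P σ => exact absurd (D_perm σ w) h

theorem conn_reach {v : Fin 3 → W} {N : ℕ} {c : MRˣ} (hD : D (act (c : MR) v) = N + 1)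
    {a b : MRˣ} (hC : Conn (act (c : MR) v) a b) (hR : Reach v N (a * c)) :
    Reach v N (b * c) ∨ ((N < D (act ((b * c : MRˣ) : MR) v)) ∧
      ∃ i r, Reach v N (Tu i r * (b * c))) := by
  induction hC with
  | refl a => left; exact hR
  | step a M b ha hM hC ih =>
    by_cases hle : D (act ((M * a * c : MRˣ) : MR) v) ≤ N
    · apply ih
      rw [mul_assoc]
      exact Reach.step _ M hR hM (by rwa [← mul_assoc])
    · have hval : ∀ x : MRˣ, act ((x * c : MRˣ) : MR) v = act (x : MR) (act (c : MR) v) := by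
        intro x; rw [Units.val_mul, act_mul]
      cases hC with
      | refl _ =>
        right
        refine ⟨by omega, ?_⟩
        obtain ⟨i, r, rfl⟩ : ∃ i r, M = Tu i r := by
          apply Mv_lower (w := act ((a * c : MRˣ) : MR) v) hM
          intro heq
          have h1 : D (act ((a * c : MRˣ) : MR) v) ≤ N := hR.le
          apply hle
          rw [mul_assoc, Units.val_mul, act_mul, heq]
          exact h1
        refine ⟨i, r, ?_⟩
        have : Tu i r * (Tu i r * a * c) = a * c := by
          rw [mul_assoc, ← mul_assoc (Tu i r) (Tu i r), Tu_sq, one_mul]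
        rw [this]
        exact hR
      | step _ M' _ h' _ _ =>
        exfalso
        apply hle
        rw [hval]
        rw [hD] at h'
        omega

theorem elim {v : Fin 3 → W} (hn : Nice v) {N : ℕ} (h0 : D v ≤ N) {h : MRˣ}
    (hR : Reach v (N + 1) h) : Reach v N h ∨
      (D (act (h : MR) v) = N + 1 ∧ ∃ i r, Reach v N (Tu i r * h)) := by
  induction hR with
  | one _ => left; exact Reach.one h0
  | step c M hc hM hle ih =>
    rcases ih with hl | ⟨hD, i, r, hl⟩
    · by_cases hN : D (act ((M * c : MRˣ) : MR) v) ≤ N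
      · left; exact Reach.step c M hl hM hN
      · right
        have h1 := hl.le
        obtain ⟨i, r, rfl⟩ : ∃ i r, M = Tu i r := by
          apply Mv_lower (w := act (c : MR) v) hM
          intro heq
          apply hN
          rw [Units.val_mul, act_mul, heq]
          exact h1
        refine ⟨by omega, i, r, ?_⟩
        rw [← mul_assoc, Tu_sq, one_mul]
        exact hl
    · have hdec : dec i r (act (c : MR) v) := by
        rw [dec_iff]
        have := hl.le
        rw [Units.val_mul, act_mul, Tu_val] at this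
        omega
      cases hM with
      | T l s =>
        have hnd : ndec l s (act (c : MR) v) := by
          rw [ndec_iff]
          rw [Units.val_mul, act_mul, Tu_val] at hle
          omega
        rcases conn_reach hD (peak (hn.act c) hdec hnd) hl with h | ⟨h1, h2⟩
        · left; exact h
        · right; exact ⟨by omega, h2⟩
      | P σ =>
        right
        constructor
        · rw [Units.val_mul, act_mul, Pu_val, D_perm, hD]
        · refine ⟨σ i, fun b => r (σ.symm b), ?_⟩
          rw [← mul_assoc, ← Pu_mul_Tu, mul_assoc]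
          refine Reach.step _ _ hl (Mv.P σ) ?_
          rw [Units.val_mul, act_mul, Pu_val, D_perm]
          exact hl.le

theorem descend {v : Fin 3 → W} (hn : Nice v) {h : MRˣ}
    (hirr : ∀ i r, ¬ dec i r (act (h : MR) v)) {N : ℕ} (hN : D v ≤ N) (hR : Reach v N h) :
    Reach v (D v) h := by
  induction N, hN using Nat.le_induction with
  | base => exact hR
  | succ N hN ih =>
    rcases elim hn hN hR with h1 | ⟨hD, i, r, hl⟩
    · exact ih h1
    · exfalso
      apply hirr i r
      rw [dec_iff]
      have := hl.le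
      rw [Units.val_mul, act_mul, Tu_val] at this
      omega

/-! ### elementary subgroup -/

/-- generators of the elementary group -/
def gens : Set MRˣ := {g | ∃ i j : Fin 3, ∃ c : Rs, i ≠ j ∧
  (g : MR) = 1 + Matrix.of (fun a b => if a = i ∧ b = j then c else 0)}

theorem gens_eq {g : MRˣ} (hg : g ∈ gens) : ∃ i r, g = Tu i r := by
  obtain ⟨i, j, c, hij, hg⟩ := hg
  refine ⟨i, Pi.single j c, Units.ext ?_⟩
  rw [hg]
  apply Matrix.ext
  intro a b
  show (1 : MR) a b + (if a = i ∧ b = j then c else 0) = Tm i (Pi.single j c) a b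
  unfold Tm
  by_cases hab : a = b
  · subst hab
    rw [Matrix.one_apply_eq, if_pos rfl, if_neg, add_zero]
    rintro ⟨rfl, rfl⟩
    exact hij rfl
  · rw [Matrix.one_apply_ne hab, if_neg hab, zero_add]
    by_cases hai : a = i
    · by_cases hbj : b = j
      · rw [if_pos ⟨hai, hbj⟩, if_pos hai, hbj, Pi.single_eq_same]
      · rw [if_neg (fun h => hbj h.2), if_pos hai, Pi.single_eq_of_ne hbj]
    · rw [if_neg (fun h => hai h.1), if_neg hai]

theorem reach_of_mem {v : Fin 3 → W} {h : MRˣ} (hh : h ∈ Subgroup.closure gens) :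
    ∃ N, D v ≤ N ∧ Reach v N h := by
  have key : ∀ i r (y : MRˣ), (∃ N, D v ≤ N ∧ Reach v N y) →
      ∃ N, D v ≤ N ∧ Reach v N (Tu i r * y) := by
    rintro i r y ⟨N, hN, hR⟩
    refine ⟨max N (D (act ((Tu i r * y : MRˣ) : MR) v)), hN.trans (le_max_left _ _), ?_⟩
    exact Reach.step _ _ (hR.mono (le_max_left _ _)) (Mv.T i r) (le_max_right _ _)
  induction hh using Subgroup.closure_induction_left with
  | one => exact ⟨D v, le_rfl, Reach.one le_rfl⟩
  | mul_left x hx y _ ih =>
    obtain ⟨i, r, rfl⟩ := gens_eq hx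
    exact key i r y ih
  | inv_mul_cancel x hx y _ ih =>
    obtain ⟨i, r, rfl⟩ := gens_eq hx
    rw [Tu_inv]
    exact key i r y ih

/-! ### scalar independent vectors -/

/-- scalar independence in top degree -/
def Ind (v : Fin 3 → W) (m : ℕ) : Prop :=
  (∀ i, v i ∈ A (2 * (m + 1))) ∧ ∀ μ : Fin 3 → ZMod 2, ∑ i, μ i • v i ∈ A (2 * m) → μ = 0

theorem Ind.deg {v : Fin 3 → W} {m : ℕ} (h : Ind v m) (i : Fin 3) : Deg (v i) m := by
  refine ⟨h.1 i, fun hc => ?_⟩
  have := h.2 (Pi.single i 1) (by
    rw [Finset.sum_eq_single i]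
    · rw [Pi.single_eq_same, one_smul]; exact hc
    · intro b _ hb; rw [Pi.single_eq_of_ne hb, zero_smul]
    · intro h; exact absurd (Finset.mem_univ _) h)
  have h1 := congrFun this i
  rw [Pi.single_eq_same] at h1
  exact one_ne_zero h1

/-- scalar matrices -/
def Scal (X : MR) : Prop := ∀ a b, (X a b : EW) ∈ G 0

theorem G0_mul {x y : EW} (hx : x ∈ G 0) (hy : y ∈ G 0) : x * y ∈ G 0 := by
  have := G_mul hx hy
  simpa using this

theorem Scal.mul {X Y : MR} (hX : Scal X) (hY : Scal Y) : Scal (X * Y) := by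
  intro a b
  rw [Matrix.mul_apply, AddSubmonoidClass.coe_finsetSum]
  exact Submodule.sum_mem _ (fun j _ => G0_mul (hX a j) (hY j b))

theorem Scal.one : Scal 1 := by
  intro a b
  by_cases h : a = b
  · subst h; rw [Matrix.one_apply_eq]; exact one_mem_G0
  · rw [Matrix.one_apply_ne h]; exact Submodule.zero_mem _

theorem Scal.perm (σ : Equiv.Perm (Fin 3)) : Scal (Pm σ) := by
  intro a b
  unfold Pm
  split_ifs
  · exact one_mem_G0
  · exact Submodule.zero_mem _

theorem Scal.move {i : Fin 3} {r : Fin 3 → Rs} (h : ∀ b, b ≠ i → (r b : EW) ∈ G 0) :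
    Scal (Tm i r) := by
  intro a b
  unfold Tm
  split_ifs with h1 h2
  · exact one_mem_G0
  · exact h b (fun hb => h1 (h2.trans hb.symm))
  · exact Submodule.zero_mem _

theorem Ind.act {v : Fin 3 → W} {m : ℕ} (h : Ind v m) {X : MRˣ} (hX : Scal (X : MR)) :
    Ind (act (X : MR) v) m := by
  have hc : ∀ a b, ∃ c : ZMod 2, (((X : MR) a b : Rs) : EW) = c • 1 := fun a b =>
    mem_G0.1 (hX a b)
  choose c hc using hc
  have hact : ∀ i, MP_4a5c06_al.act (X : MR) v i = ∑ j, c i j • v j := by
    intro i
    rw [act_apply]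
    refine Finset.sum_congr rfl (fun j _ => ?_)
    rw [hc i j]; rfl
  constructor
  · intro i
    rw [hact]
    exact Submodule.sum_mem _ (fun j _ => Submodule.smul_mem _ _ (h.1 j))
  · intro μ hμ
    have e1 : ∑ i, μ i • MP_4a5c06_al.act (X : MR) v i = ∑ j, (∑ i, μ i * c i j) • v j := by
      simp only [hact, Finset.smul_sum, Finset.sum_smul, smul_smul]
      exact Finset.sum_comm
    rw [e1] at hμ
    have e2 := h.2 _ hμ
    -- go back with the inverse matrix
    have e3 : Matrix.vecMul (fun i => (⟨μ i • 1, mem_G0.2 ⟨μ i, rfl⟩ |> fun h => ⟨0, h⟩⟩ : Rs)) (X : MR)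
        = 0 := by
      funext j
      apply Subtype.ext
      simp only [Matrix.vecMul, dotProduct]
      rw [AddSubmonoidClass.coe_finsetSum]
      have : ∀ i, (((⟨μ i • 1, mem_G0.2 ⟨μ i, rfl⟩ |> fun h => ⟨0, h⟩⟩ : Rs) * (X : MR) i j : Rs) : EW)
          = (μ i * c i j) • (1 : EW) := by
        intro i
        show (μ i • (1 : EW)) * (((X : MR) i j : Rs) : EW) = _
        rw [hc i j, smul_mul_assoc, one_mul, smul_smul]
      simp only [this]
      rw [← Finset.sum_smul]
      have := congrFun e2 j
      simp only [Pi.zero_apply] at this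
      rw [this, zero_smul]
      rfl
    have e4 := congrArg (fun u => Matrix.vecMul u ((X⁻¹ : MRˣ) : MR)) e3
    simp only [Matrix.vecMul_vecMul, Matrix.zero_vecMul] at e4
    rw [← Units.val_mul, mul_inv_cancel, Units.val_one, Matrix.vecMul_one] at e4
    funext i
    have e5 : (μ i • (1 : EW)) = 0 := congrArg Subtype.val (congrFun e4 i)
    by_contra hne
    rw [zmod2_eq_one hne, one_smul] at e5
    exact one_ne_zero e5

theorem Ind.scal_aux {v : Fin 3 → W} {m : ℕ} (h : Ind v m) {l j : Fin 3} (hlj : l ≠ j)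
    (hz : ∃ z ∈ Rs, v l + z (v j) ∈ A (2 * m)) : False := by
  obtain ⟨z, hz, hzm⟩ := hz
  have h1 : z (v j) ∈ A (2 * (m + 1)) := by
    rw [sum_cancel (a := v l) (b := z (v j)) rfl]
    exact Submodule.add_mem _ (h.1 l) (A_mono (by omega) hzm)
  obtain ⟨c, rfl⟩ := mem_G0.1 (single_scalar (h.deg j) hz h1)
  have h2 := h.2 (Pi.single l 1 + Pi.single j c) (by
    have : ∑ i, (Pi.single l 1 + Pi.single j c : Fin 3 → ZMod 2) i • v i = v l + c • v j := by
      simp only [Pi.add_apply, add_smul, Finset.sum_add_distrib]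
      congr 1
      · rw [Finset.sum_eq_single l]
        · rw [Pi.single_eq_same, one_smul]
        · intro b _ hb; rw [Pi.single_eq_of_ne hb, zero_smul]
        · intro h; exact absurd (Finset.mem_univ _) h
      · rw [Finset.sum_eq_single j]
        · rw [Pi.single_eq_same]
        · intro b _ hb; rw [Pi.single_eq_of_ne hb, zero_smul]
        · intro h; exact absurd (Finset.mem_univ _) h
    rw [this]
    exact hzm)
  have h3 := congrFun h2 l
  rw [Pi.add_apply, Pi.single_eq_same, Pi.single_eq_of_ne hlj, add_zero] at h3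
  exact one_ne_zero h3

theorem Ind.scal {v : Fin 3 → W} {m : ℕ} (h : Ind v m) {i : Fin 3} {r : Fin 3 → Rs}
    (hd : ndec i r v) (b : Fin 3) (hb : b ≠ i) : (r b : EW) ∈ G 0 := by
  obtain ⟨l, j, hil, hij, hlj⟩ := others i
  unfold ndec at hd
  rw [Tm_act_self hil hij hlj, (h.deg i).dl_eq] at hd
  have hbl := (h.deg l).bd.act (r l).2
  have hbj := (h.deg j).bd.act (r j).2
  have h1 := (((h.deg i).bd.add (hbl.add hbj)).le_iff).1 hd
  have h2 : (r l : EW) (v l) + (r j : EW) (v j) ∈ A (2 * (m + 1)) := by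
    rw [sum_cancel (a := v i) (b := (r l : EW) (v l) + (r j : EW) (v j)) rfl]
    exact Submodule.add_mem _ (h.1 i) h1
  rcases pair_lemma (h.deg l) (h.deg j) (r l).2 (r j).2 h2 with ⟨ha, hb'⟩ | ha | ha
  · unfold Gi at ha hb'
    rw [if_pos le_rfl, Nat.sub_self] at ha hb'
    rcases cases3 hil hij hlj b with h | h | h
    · exact absurd h hb
    · rw [h]; exact ha
    · rw [h]; exact hb'
  · exact (h.scal_aux hlj ha).elim
  · exact (h.scal_aux (Ne.symm hlj) ha).elim

theorem Ind.irr {v : Fin 3 → W} {m : ℕ} (h : Ind v m) (i : Fin 3) (r : Fin 3 → Rs) :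
    ¬ dec i r v := by
  intro hd
  have hs := h.scal hd.ndec
  have hI := h
  -- the unit `Tu i r` is scalar
  have h2 : Ind (MP_4a5c06_al.act (Tm i r) v) m := h.act (X := Tu i r) (Scal.move hs)
  unfold dec at hd
  rw [(h2.deg i).dl_eq, (h.deg i).dl_eq] at hd
  omega

theorem Ind.D_eq {v : Fin 3 → W} {m : ℕ} (h : Ind v m) : D v = 3 * (m + 1) := by
  unfold D
  simp only [(h.deg _).dl_eq]
  rw [Finset.sum_const, Finset.card_univ, Fintype.card_fin, smul_eq_mul]

theorem plateau {v : Fin 3 → W} {m : ℕ} (h : Ind v m) {g : MRˣ} (hR : Reach v (D v) g) :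
    Scal (g : MR) := by
  induction hR with
  | one _ => exact Scal.one
  | step c M hc hM hle ih =>
    rw [Units.val_mul]
    refine Scal.mul ?_ ih
    cases hM with
    | T l s =>
      have h1 := h.act ih
      refine Scal.move (h1.scal ?_)
      rw [ndec_iff, h1.D_eq]
      rw [Units.val_mul, act_mul, Tu_val, h.D_eq] at hle
      exact hle
    | P σ => exact Scal.perm σ

/-- elements of the elementary group between two scalar independent vectors are scalar -/
theorem scal_of_mem {v : Fin 3 → W} (hn : Nice v) {m m' : ℕ} (h : Ind v m) {g : MRˣ}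
    (hg : g ∈ Subgroup.closure gens) (h' : Ind (act (g : MR) v) m') :
    Scal (g : MR) ∧ m' = m := by
  obtain ⟨N, hN, hR⟩ := reach_of_mem (v := v) hg
  have hs := plateau h (descend hn h'.irr hN hR)
  refine ⟨hs, ?_⟩
  have h1 := (h.act hs).D_eq
  rw [h'.D_eq] at h1
  omega

end Pool.Agent.Lib.MP_4a5c06_al
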