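import Pool.Agent.Lib.MP_4a5c06_al.Reach
import Pool.Agent.Lib.MP_4a5c06_al.Free

set_option autoImplicit false

namespace Pool.Agent.Lib.MP_4a5c06_al

/-! ### the matrices `B` -/

/-- products of columns and rows of the involution -/
def B (a b : Fin 3) : MR := fun i j => ⟨zt i a * zt b j, ⟨1, by
  have h1 : zt b j ∈ G 1 := by
    have := zt_mul_mem one_mem_G0 b j
    rwa [mul_one] at this
  exact zt_mul_mem h1 i a⟩⟩

theorem B_mul (a b c d : Fin 3) : B a b * B c d = if b = c then B a d else 0 := by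
  apply Matrix.ext
  intro i l
  apply Subtype.ext
  rw [Matrix.mul_apply, AddSubmonoidClass.coe_finsetSum]
  have h1 : ∀ j, ((B a b i j * B c d j l : Rs) : EW) = zt i a * (zt b j * zt j c) * zt d l := by
    intro j
    show (zt i a * zt b j) * (zt j c * zt d l) = _
    simp only [mul_assoc]
  simp only [h1]
  rw [← Finset.sum_mul, ← Finset.mul_sum, zt_zt]
  split_ifs
  · rw [mul_one]; rfl
  · rw [mul_zero, zero_mul]; rfl

theorem B_sum : ∑ a, B a a = 1 := by
  apply Matrix.ext
  intro i l
  apply Subtype.ext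
  rw [Matrix.sum_apply, AddSubmonoidClass.coe_finsetSum]
  show ∑ a, zt i a * zt a l = _
  rw [zt_zt]
  by_cases h : i = l
  · subst h; rw [if_pos rfl, Matrix.one_apply_eq]; rfl
  · rw [if_neg h, Matrix.one_apply_ne h]; rfl

theorem B_act (a b : Fin 3) (v : Fin 3 → W) : act (B a b) v = Zl (Pi.single a (Zl v b)) := by
  funext i
  have h1 : ∑ j, zt i j ((Pi.single a (Zl v b) : Fin 3 → W) j) = zt i a (Zl v b) := by
    rw [Finset.sum_eq_single a]
    · rw [Pi.single_eq_same]
    · intro b _ hb; rw [Pi.single_eq_of_ne hb, map_zero]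
    · intro h; exact absurd (Finset.mem_univ _) h
  rw [act_apply, Zl_eq (Pi.single a (Zl v b)), h1, Zl_eq v b, map_sum]
  rfl

theorem MR_add_self (X : MR) : X + X = 0 := by
  apply Matrix.ext; intro i j; exact Rs_add_self _

theorem g0_sq : (1 + B 0 1) * (1 + B 0 1) = 1 := by
  have h := B_mul 0 1 0 1
  rw [if_neg (by decide)] at h
  calc (1 + B 0 1) * (1 + B 0 1) = 1 + (B 0 1 + B 0 1) + B 0 1 * B 0 1 := by noncomm_ring
    _ = 1 := by rw [h, MR_add_self, add_zero, add_zero]

/-- the extra involution -/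
def g0 : MRˣ := ⟨1 + B 0 1, 1 + B 0 1, g0_sq, g0_sq⟩

theorem g0_mul_self : g0 * g0 = 1 := Units.ext g0_sq

theorem act_add (X Y : MR) (v : Fin 3 → W) : act (X + Y) v = act X v + act Y v := by
  funext i
  simp only [act_apply, Pi.add_apply]
  rw [← Finset.sum_add_distrib]
  rfl

theorem g0_act (v : Fin 3 → W) : act (g0 : MR) v = v + Zl (Pi.single 0 (Zl v 1)) := by
  show act (1 + B 0 1) v = _
  rw [act_add, act_one, B_act]

/-! ### the ping-pong sets -/

theorem A_mono' {a b : ℕ} (hab : a ≤ b) : A (2 * a + 1) ≤ A (2 * b + 1) := by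
  induction b, hab using Nat.le_induction with
  | base => exact le_rfl
  | succ b _ ih => exact ih.trans (A_mono2 _)

/-- first set -/
def SA : Set (Fin 3 → W) := {v | Nice v ∧ ∃ m, (∀ i, v i ∈ A (2 * (m + 1))) ∧
  ¬ ∀ i, Zl v i ∈ A (2 * m + 1)}

/-- second set, with the degree recorded -/
def SBm (m : ℕ) : Set (Fin 3 → W) := {v | Nice v ∧ (∀ i, v i ∈ A (2 * (m + 1))) ∧
  (¬ ∀ i, v i ∈ A (2 * m)) ∧ ∀ i, Zl v i ∈ A (2 * m + 1)}

/-- second set -/
def SB : Set (Fin 3 → W) := {v | ∃ m, v ∈ SBm m}

theorem SA_SB : Disjoint SA SB := by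
  rw [Set.disjoint_left]
  rintro v ⟨_, m', h1, h2⟩ ⟨m, _, h3, h4, h5⟩
  have hm : m ≤ m' := by
    by_contra hc
    exact h4 (fun i => A_mono (by omega) (h1 i))
  exact h2 (fun i => A_mono' hm (h5 i))

theorem SBm_ind {v : Fin 3 → W} {m : ℕ} (h : v ∈ SBm m) : Ind v m := by
  obtain ⟨_, h1, h2, h3⟩ := h
  refine ⟨h1, fun μ hμ => ?_⟩
  have key := axiom_ex (c := fun i => μ i • Zl v) (d := 2 * m)
    (fun i j => Submodule.smul_mem _ _ (h3 j)) (by
      have : ∀ i, Zl (μ i • Zl v) i = μ i • v i := by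
        intro i; rw [map_smul, Zl_Zl]; rfl
      simp only [this]
      exact hμ)
  funext i
  by_contra hne
  apply h2
  intro l
  have h4 := key i l
  rw [map_smul, Zl_Zl, Pi.smul_apply, zmod2_eq_one hne, one_smul] at h4
  exact h4

theorem top_rel {v : Fin 3 → W} {m : ℕ} (h : v ∈ SBm m) (j : Fin 3) (w : List Lt)
    (hw : w.length = 2 * m) : (v j : Fn) w = Uc (und v) j w := by
  obtain ⟨_, h1, _, h3⟩ := h
  have h4 := h3 0 ((0, j) :: w) (by simp only [List.length_cons]; omega)
  rw [Zl_apply, Tc_zero_of (d := 2 * (m + 1)) h1 0 _ (by simp only [List.length_cons]; omega),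
    zero_add, Cc_cons, if_pos rfl] at h4
  change (v j : Fn) w + Uc (und v) j w = 0 at h4
  calc (v j : Fn) w = (v j : Fn) w + (Uc (und v) j w + Uc (und v) j w) := by
        rw [mc_add_self, add_zero]
    _ = ((v j : Fn) w + Uc (und v) j w) + Uc (und v) j w := by rw [add_assoc]
    _ = Uc (und v) j w := by rw [h4, zero_add]

theorem diag_of_scal {v : Fin 3 → W} {m : ℕ} (h : v ∈ SBm m) {X : MR} (hX : Scal X)
    (h' : act X v ∈ SBm m) {i j : Fin 3} (hij : i ≠ j) : X j i = 0 := by
  have hI := SBm_ind h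
  obtain ⟨w, hw, hne⟩ : ∃ w : List Lt, w.length = 2 * m ∧ (v i : Fn) w ≠ 0 := by
    by_contra hcon
    push Not at hcon
    apply (hI.deg i).2
    intro w hw
    by_cases hl : w.length = 2 * m
    · exact hcon w hl
    · exact (hI.deg i).1 w (by omega)
  cases w with
  | nil => exact absurd (top_rel h i [] hw) hne
  | cons q w =>
    have hq : ∀ k, k ≠ q.1 → (v k : Fn) (q :: w) = 0 := by
      intro k hk
      rw [top_rel h k _ hw, Uc_cons, if_neg hk]
    have hi : i = q.1 := by
      by_contra hc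
      exact hne (hq i hc)
    have h1 : (act X v j : Fn) (q :: w) = 0 := by
      rw [top_rel h' j _ hw, Uc_cons, if_neg]
      rw [← hi]; exact Ne.symm hij
    have hc : ∀ k, ∃ c : ZMod 2, ((X j k : Rs) : EW) = c • 1 := fun k => mem_G0.1 (hX j k)
    choose c hc using hc
    have h2 : act X v j = ∑ k, c k • v k := by
      rw [act_apply]
      refine Finset.sum_congr rfl (fun k _ => ?_)
      rw [hc k]; rfl
    rw [h2, AddSubmonoidClass.coe_finsetSum, Finset.sum_apply, Finset.sum_eq_single i] at h1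
    · have h3 : c i • (v i : Fn) (q :: w) = 0 := h1
      apply Subtype.ext
      rw [hc i]
      by_cases hci : c i = 0
      · rw [hci, zero_smul]; rfl
      · rw [zmod2_eq_one hci, one_smul] at h3
        exact absurd h3 hne
    · intro k _ hk
      show c k • (v k : Fn) (q :: w) = 0
      rw [hq k (by rw [← hi]; exact hk), smul_zero]
    · intro h; exact absurd (Finset.mem_univ _) h

theorem E_SB {g : MRˣ} (hg : g ∈ Subgroup.closure gens) (h1 : g ≠ 1) {v : Fin 3 → W}
    (hv : v ∈ SB) : act (g : MR) v ∈ SA := by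
  obtain ⟨m, hv⟩ := hv
  have hn : Nice (act (g : MR) v) := hv.1.act g
  refine ⟨hn, ?_⟩
  by_contra hcon
  push Not at hcon
  -- the maximal degree
  obtain ⟨k, _, hk⟩ := Finset.exists_max_image Finset.univ (fun i => dl (act (g : MR) v i))
    ⟨0, Finset.mem_univ _⟩
  have hp := dl_pos (hn.1 k) (hn.ne_zero k)
  set m' := dl (act (g : MR) v k) - 1 with hm'
  have hmk : m' + 1 = dl (act (g : MR) v k) := by omega
  have hA : ∀ i, act (g : MR) v i ∈ A (2 * (m' + 1)) := by
    intro i
    rw [← (hn.1 i).le_iff, hmk]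
    exact hk i (Finset.mem_univ _)
  have hB : ¬ ∀ i, act (g : MR) v i ∈ A (2 * m') := by
    intro hc
    have := ((hn.1 k).le_iff).2 (hc k)
    omega
  have hmem : act (g : MR) v ∈ SBm m' := ⟨hn, hA, hB, hcon m' hA⟩
  obtain ⟨hs, hmm⟩ := scal_of_mem hv.1 (SBm_ind hv) hg (SBm_ind hmem)
  rw [hmm] at hmem
  apply h1
  apply Units.ext
  have hd : ∀ i j, i ≠ j → (g : MR) i j = 0 := fun i j hij => diag_of_scal hv hs hmem hij.symm
  apply Matrix.ext
  intro i j
  by_cases hij : i = j
  · subst hij
    rw [Units.val_one, Matrix.one_apply_eq]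
    obtain ⟨c, hc⟩ := mem_G0.1 (hs i i)
    by_cases hc0 : c = 0
    · exfalso
      have h2 : ((g : MR) * ((g⁻¹ : MRˣ) : MR)) i i = 1 := by
        rw [← Units.val_mul, mul_inv_cancel, Units.val_one, Matrix.one_apply_eq]
      have h3 : (g : MR) i i = 0 := by
        apply Subtype.ext
        rw [hc, hc0, zero_smul]; rfl
      rw [Matrix.mul_apply, Finset.sum_eq_zero] at h2
      · have h4 : (0 : EW) = 1 := congrArg Subtype.val h2
        exact zero_ne_one h4
      · intro j _
        by_cases hj : i = j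
        · subst hj; rw [h3, zero_mul]
        · rw [hd i j hj, zero_mul]
    · apply Subtype.ext
      rw [hc, zmod2_eq_one hc0, one_smul]; rfl
  · rw [Units.val_one, Matrix.one_apply_ne hij]
    exact hd i j hij

theorem single_mem {w : W} {d : ℕ} (hw : w ∈ A d) (j i : Fin 3) :
    (Pi.single j w : Fin 3 → W) i ∈ A d := by
  by_cases h : i = j
  · subst h; rw [Pi.single_eq_same]; exact hw
  · rw [Pi.single_eq_of_ne h]; exact Submodule.zero_mem _

theorem g0_SA {v : Fin 3 → W} (hv : v ∈ SA) : act (g0 : MR) v ∈ SB := by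
  obtain ⟨hn, m, h1, h2⟩ := hv
  have hy : ∀ i, Zl v i ∈ A (2 * (m + 1) + 1) := fun i => Zl_mem h1 i
  have hz : ∀ i, Zl (Pi.single 0 (Zl v 1)) i ∈ A (2 * (m + 1 + 1)) := fun i =>
    Zl_mem (d := 2 * (m + 1) + 1) (fun i => single_mem (hy 1) 0 i) i
  refine ⟨m + 1, hn.act g0, ?_, ?_, ?_⟩
  · intro i
    rw [g0_act]
    exact Submodule.add_mem _ (A_mono (by omega) (h1 i)) (hz i)
  · intro hc
    -- the correction lies in the smaller step
    have h3 : ∀ i, Zl (Pi.single 0 (Zl v 1)) i ∈ A (2 * (m + 1)) := by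
      intro i
      have h4 := hc i
      rw [g0_act, Pi.add_apply] at h4
      rw [sum_cancel (a := v i) (b := Zl (Pi.single 0 (Zl v 1)) i) rfl]
      exact Submodule.add_mem _ (h1 i) h4
    have h5 : Zl v 1 ∈ A (2 * m + 1) := by
      have := axiom_ex (c := fun i => if i = 1 then Zl (Pi.single 0 (Zl v 1)) else 0)
        (d := 2 * m + 1) (by
          intro i j
          split_ifs
          · exact h3 j
          · exact Submodule.zero_mem _) (by
          rw [Finset.sum_eq_zero]
          · exact Submodule.zero_mem _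
          · intro i _
            split_ifs with hi
            · rw [Zl_Zl, hi, Pi.single_eq_of_ne (by decide)]
            · rw [map_zero]; rfl) 1 0
      rw [if_pos rfl, Zl_Zl, Pi.single_eq_same] at this
      exact this
    apply h2
    intro l
    have := axiom_ex (c := fun i => if i = 1 then v else 0) (d := 2 * m + 1) (by
          intro i j
          split_ifs
          · exact h1 j
          · exact Submodule.zero_mem _) (by
          rw [Finset.sum_eq_single 1]
          · rw [if_pos rfl]; exact h5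
          · intro i _ hi
            rw [if_neg hi, map_zero]; rfl
          · intro h; exact absurd (Finset.mem_univ _) h) 1 l
    rw [if_pos rfl] at this
    exact this
  · intro i
    rw [g0_act, map_add, Zl_Zl, Pi.add_apply]
    exact Submodule.add_mem _ (hy i) (single_mem (hy 1) 0 i)

/-! ### nonemptiness -/

/-- coordinate projections -/
def pr (k : Fin 3) : W →ₗ[ZMod 2] W where
  toFun f := ⟨fun l => Pi.single k ((f : Fn) l k), by
    intro l₁ i j l₂
    have h1 := congrFun (f.2 l₁ i j l₂) k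
    rw [Finset.sum_apply] at h1
    funext c
    rw [Finset.sum_apply]
    by_cases hc : c = k
    · subst hc
      simp only [Pi.single_eq_same]
      exact h1
    · refine Finset.sum_eq_zero (fun a _ => ?_)
      exact Pi.single_eq_of_ne hc _⟩
  map_add' := by
    intro f g
    apply Subtype.ext
    funext l
    exact Pi.single_add k _ _
  map_smul' := by
    intro r f
    apply Subtype.ext
    funext l
    exact Pi.single_smul k r _

theorem pr_apply (k : Fin 3) (f : W) (l : List Lt) :
    ((pr k f : W) : Fn) l = Pi.single k ((f : Fn) l k) := rfl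

theorem single_sum (k : Fin 3) (f : Fin 3 → Mc) :
    (∑ j, Pi.single k (f j k) : Mc) = Pi.single k ((∑ j, f j) k) := by
  funext c
  rw [Finset.sum_apply]
  by_cases hc : c = k
  · subst hc
    simp only [Pi.single_eq_same]
    rw [Finset.sum_apply]
  · rw [Pi.single_eq_of_ne hc]
    exact Finset.sum_eq_zero (fun a _ => Pi.single_eq_of_ne hc _)

theorem Tc_pr (k : Fin 3) (c : Fin 3 → W) (i : Fin 3) (w : List Lt) :
    Tc (und (fun j => pr k (c j))) i w = Pi.single k (Tc (und c) i w k) := by
  unfold Tc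
  exact single_sum k (fun j => (c j : Fn) ((j, i) :: w))

theorem Uc_pr (k : Fin 3) (c : Fin 3 → W) (i : Fin 3) (w : List Lt) :
    Uc (und (fun j => pr k (c j))) i w = Pi.single k (Uc (und c) i w k) := by
  cases w with
  | nil => exact (Pi.single_zero k).symm
  | cons p w =>
    rw [Uc_cons, Uc_cons]
    split_ifs
    · exact Tc_pr k c _ _
    · exact (Pi.single_zero k).symm

theorem Cc_pr (k : Fin 3) (c : Fin 3 → W) (i : Fin 3) (w : List Lt) :
    Cc (und (fun j => pr k (c j))) i w = Pi.single k (Cc (und c) i w k) := by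
  cases w with
  | nil => exact (Pi.single_zero k).symm
  | cons p w =>
    rw [Cc_cons, Cc_cons]
    split_ifs
    · rw [Uc_pr, Pi.add_apply, Pi.single_add]
      rfl
    · exact (Pi.single_zero k).symm

theorem Zl_pr (k : Fin 3) (c : Fin 3 → W) (i : Fin 3) :
    Zl (fun j => pr k (c j)) i = pr k (Zl c i) := by
  apply Subtype.ext
  funext w
  rw [Zl_apply, Tc_pr, Cc_pr, pr_apply, Zl_apply, Pi.add_apply, Pi.single_add]

theorem zt_pr (k i j : Fin 3) (w : W) : zt i j (pr k w) = pr k (zt i j w) := by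
  have h1 : (Pi.single j (pr k w) : Fin 3 → W) = fun a => pr k ((Pi.single j w : Fin 3 → W) a) := by
    funext a
    by_cases h : a = j
    · subst h; rw [Pi.single_eq_same, Pi.single_eq_same]
    · rw [Pi.single_eq_of_ne h, Pi.single_eq_of_ne h, map_zero]
  rw [zt_apply, zt_apply, ← Zl_pr, h1]

theorem G_pr (k : Fin 3) {n : ℕ} {g : EW} (hg : g ∈ G n) (w : W) :
    g (pr k w) = pr k (g w) := by
  induction n generalizing g with
  | zero =>
    obtain ⟨r, rfl⟩ := mem_G0.1 hg
    show r • pr k w = pr k (r • w)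
    rw [map_smul]
  | succ m ih =>
    obtain ⟨u, hu, rfl⟩ := G_decomp hg
    simp only [LinearMap.sum_apply, map_sum, Module.End.mul_apply]
    refine Finset.sum_congr rfl (fun i _ => Finset.sum_congr rfl (fun j _ => ?_))
    rw [ih (hu i j), zt_pr]

theorem v0_mem (k : Fin 3) : v0 k ∈ A (2 * (0 + 1)) := by
  intro l hl
  show (if l = [] then _ else 0 : Mc) = 0
  rw [if_neg]
  rintro rfl
  apply hl
  decide

theorem v0_deg (k : Fin 3) : Deg (v0 k) 0 := by
  refine ⟨v0_mem k, fun h => v0_ne k ?_⟩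
  rw [Nat.mul_zero, A_zero] at h
  exact (Submodule.mem_bot _).1 h

theorem pr_v0 (k i : Fin 3) : pr k (v0 i) = if i = k then v0 i else 0 := by
  apply Subtype.ext
  funext l
  rw [pr_apply]
  by_cases hl : l = []
  · subst hl
    rw [v0_nil]
    by_cases h : i = k
    · subst h
      rw [if_pos rfl, Pi.single_eq_same, v0_nil]
    · rw [if_neg h, Pi.single_eq_of_ne (Ne.symm h), Pi.single_zero]
      rfl
  · have h0 : ∀ a, (v0 a : Fn) l = 0 := fun a => if_neg hl
    rw [h0]
    by_cases h : i = k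
    · rw [if_pos h, h0]; exact Pi.single_zero k
    · rw [if_neg h]; exact Pi.single_zero k

theorem v0_nice : Nice v0 := by
  refine ⟨fun i => (v0_deg i).bd, fun r hr => ?_⟩
  funext k
  have h1 : (r k : EW) (v0 k) = 0 := by
    have h2 := congrArg (pr k) hr
    rw [map_zero, map_sum, Finset.sum_eq_single k] at h2
    · obtain ⟨n, hn⟩ := (r k).2
      rw [← G_pr k hn, pr_v0, if_pos rfl] at h2
      exact h2
    · intro i _ hi
      obtain ⟨n, hn⟩ := (r i).2
      rw [← G_pr k hn, pr_v0, if_neg hi, map_zero]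
    · intro h; exact absurd (Finset.mem_univ _) h
  have h2 := single_zero (v0_deg k) (r k).2 (by rw [h1]; exact Submodule.zero_mem _)
  exact Subtype.ext h2

theorem v0_SA : v0 ∈ SA := by
  refine ⟨v0_nice, 0, v0_mem, fun h => v0_ne 0 ?_⟩
  have h1 : Zl v0 = 0 := by
    funext i
    have := h i
    rw [Nat.mul_zero, Nat.zero_add, A_one] at this
    exact (Submodule.mem_bot _).1 this
  have h2 := Zl_Zl v0
  rw [h1, map_zero] at h2
  rw [← h2]; rfl

/-! ### the conclusion -/

/-- triples with the matrix action -/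
def VV : Type := Fin 3 → W

instance : MulAction MRˣ VV where
  smul g v := act (g : MR) v
  one_smul v := by
    show act ((1 : MRˣ) : MR) v = v
    rw [Units.val_one, act_one]
  mul_smul g h v := by
    show act ((g * h : MRˣ) : MR) v = act (g : MR) (act (h : MR) v)
    rw [Units.val_mul, act_mul]

theorem smul_def (g : MRˣ) (v : VV) : g • v = act (g : MR) v := rfl

/-- generators of the elementary group -/
def ge (i j : Fin 3) : MRˣ := Tu i (Pi.single j 1)

theorem ge_mem {i j : Fin 3} (h : i ≠ j) : ge i j ∈ gens := by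
  refine ⟨i, j, 1, h, ?_⟩
  apply Matrix.ext
  intro a b
  show Tm i (Pi.single j 1) a b = (1 : MR) a b + (if a = i ∧ b = j then 1 else 0)
  unfold Tm
  by_cases hab : a = b
  · subst hab
    rw [Matrix.one_apply_eq, if_pos rfl, if_neg, add_zero]
    rintro ⟨rfl, rfl⟩
    exact h rfl
  · rw [Matrix.one_apply_ne hab, if_neg hab, zero_add]
    by_cases hai : a = i
    · by_cases hbj : b = j
      · rw [if_pos hai, if_pos ⟨hai, hbj⟩, hbj, Pi.single_eq_same]
      · rw [if_pos hai, if_neg (fun h => hbj h.2), Pi.single_eq_of_ne hbj]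
    · rw [if_neg hai, if_neg (fun h => hai h.1)]

theorem Rs_one_ne : (1 : Rs) ≠ 0 := by
  intro h
  have h1 : (1 : EW) = 0 := congrArg Subtype.val h
  exact one_ne_zero h1

theorem ge_apply {i j : Fin 3} (h : i ≠ j) : (ge i j : MR) i j = 1 := by
  show Tm i (Pi.single j 1) i j = 1
  unfold Tm
  rw [if_neg h, if_pos rfl, Pi.single_eq_same]

theorem ge_ne_one {i j : Fin 3} (h : i ≠ j) : ge i j ≠ 1 := by
  intro h1
  have h2 := ge_apply h
  rw [h1, Units.val_one, Matrix.one_apply_ne h] at h2
  exact Rs_one_ne h2.symm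

/-- The normal closure of the extra involution meets the elementary group trivially. -/
theorem main_disjoint (x : MRˣ) (hx : x ∈ Subgroup.closure gens)
    (hxN : x ∈ Subgroup.closure {y : MRˣ | ∃ e ∈ Subgroup.closure gens, y = e * g0 * e⁻¹}) :
    x = 1 := by
  refine free_disjoint (α := VV) (Subgroup.closure gens) g0 g0_mul_self SA SB
    ⟨v0, v0_SA⟩ ⟨act (g0 : MR) v0, g0_SA v0_SA⟩ SA_SB
    (fun e he h1 v hv => E_SB he h1 hv) (fun v hv => g0_SA hv) ?_ x hx hxN
  refine ⟨ge 0 1, Subgroup.subset_closure (ge_mem (by decide)), ge 0 2,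
    Subgroup.subset_closure (ge_mem (by decide)), ge_ne_one (by decide), ge_ne_one (by decide), ?_⟩
  intro h
  have h1 : (ge 0 1 : MR) 0 2 = (ge 0 2 : MR) 0 2 := by rw [h]
  rw [ge_apply (by decide)] at h1
  have h2 : (ge 0 1 : MR) 0 2 = 0 := rfl
  rw [h2] at h1
  exact Rs_one_ne h1.symm

end Pool.Agent.Lib.MP_4a5c06_al
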