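import Pool.Agent.Lib.MP_4a5c06_al.Ops

set_option autoImplicit false

namespace Pool.Agent.Lib.MP_4a5c06_al

theorem exists_mu {S : Type} [Fintype S] (hS : Fintype.card S < 3) (lam : Fin 3 → S → ZMod 2) :
    ∃ mu : Fin 3 → ZMod 2, mu ≠ 0 ∧ ∀ s, ∑ j, mu j * lam j s = 0 := by
  let f : (Fin 3 → ZMod 2) →ₗ[ZMod 2] (S → ZMod 2) :=
    { toFun := fun mu s => ∑ j, mu j * lam j s
      map_add' := by
        intro a b; funext s; simp [add_mul, Finset.sum_add_distrib]
      map_smul' := by
        intro r a; funext s; simp [Finset.mul_sum, mul_assoc] }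
  have h : LinearMap.ker f ≠ ⊥ := by
    apply LinearMap.ker_ne_bot_of_finrank_lt
    simpa using hS
  obtain ⟨mu, hmu, hne⟩ := Submodule.exists_mem_ne_zero_of_ne_bot h
  exact ⟨mu, hne, fun s => congrFun (LinearMap.mem_ker.1 hmu) s⟩

theorem zmod2_eq_one {r : ZMod 2} (h : r ≠ 0) : r = 1 := by
  revert h; revert r; decide

section
variable {S : Type} [Fintype S] {v : S → W} {d : S → ℕ}

theorem claim_b (hv : ∀ s, v s ∈ A (d s)) (hS : Fintype.card S < 3) (D : ℕ)
    (str : ∀ x : S → EW, (∀ s, x s ∈ Gi (D + 2) (d s)) → ∑ s, x s (v s) ∈ A D →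
      ∀ s, x s ∈ Gi D (d s))
    (u : Fin 3 → S → EW) (hu : ∀ j s, u j s ∈ Gi (D + 2) (d s))
    (hy : ∀ l, Zl (fun j => ∑ s, u j s (v s)) l ∈ A (D + 1)) (l : Fin 3) (s : S) :
    ∑ j, zt l j * u j s ∈ Gi (D + 1) (d s) := by
  -- scalars at the top
  have hlam : ∀ j s, ∃ r : ZMod 2, d s = D + 2 → u j s = r • 1 := by
    intro j s
    by_cases h : d s = D + 2
    · have := hu j s
      unfold Gi at this
      rw [if_pos (le_of_eq h), h, Nat.sub_self] at this
      obtain ⟨r, hr⟩ := mem_G0.1 this
      exact ⟨r, fun _ => hr⟩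
    · exact ⟨0, fun h' => absurd h' h⟩
  choose lam hlam using hlam
  obtain ⟨mu, hmu, hker⟩ := exists_mu hS lam
  have hdec : ∀ s, ∃ t : Fin 3 → Fin 3 → EW, (∀ i l, t i l ∈ Gi (D + 1) (d s)) ∧
      ∑ j, mu j • u j s = ∑ i, ∑ l, zt i l * t i l := by
    intro s
    apply Gi_decomp
    · exact Submodule.sum_mem _ (fun j _ => Submodule.smul_mem _ _ (hu j s))
    · intro h
      have : ∀ j, mu j • u j s = (mu j * lam j s) • (1 : EW) := by
        intro j; rw [hlam j s h, smul_smul]
      simp only [this]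
      rw [← Finset.sum_smul, hker s, zero_smul]
  choose t ht htsum using hdec
  set b : Fin 3 → W := fun j => ∑ s, u j s (v s) with hb
  set y : Fin 3 → W := Zl b with hydef
  have hby : b = Zl y := by rw [hydef, Zl_Zl]
  set c : Fin 3 → Fin 3 → W := fun i l => (∑ s, t s i l (v s)) + mu i • y l with hc
  have hcA : ∀ i l, c i l ∈ A (D + 1) := fun i l =>
    Submodule.add_mem _ (Submodule.sum_mem _ (fun s _ => Gi_act (ht s i l) (hv s)))
      (Submodule.smul_mem _ _ (hy l))
  have hsum0 : ∑ i, Zl (c i) i = 0 := by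
    have e1 : ∀ i, Zl (c i) i = (∑ l, ∑ s, (zt i l * t s i l) (v s)) + mu i • b i := by
      intro i
      rw [Zl_eq]
      have : ∀ l, zt i l (c i l) = (∑ s, (zt i l * t s i l) (v s)) + mu i • zt i l (y l) := by
        intro l
        simp only [hc, map_add, map_sum, map_smul]
        rfl
      simp only [this]
      rw [Finset.sum_add_distrib, ← Finset.smul_sum, ← Zl_eq, ← hby]
    simp only [e1]
    rw [Finset.sum_add_distrib]
    have e2 : ∑ i, ∑ l, ∑ s, (zt i l * t s i l) (v s) = ∑ s, (∑ j, mu j • u j s) (v s) := by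
      have : ∀ i, ∑ l, ∑ s, (zt i l * t s i l) (v s) = ∑ s, ∑ l, (zt i l * t s i l) (v s) :=
        fun i => Finset.sum_comm
      simp only [this]
      rw [Finset.sum_comm]
      refine Finset.sum_congr rfl (fun s _ => ?_)
      rw [htsum s]
      simp only [LinearMap.sum_apply]
    rw [e2]
    have e3 : ∑ s, (∑ j, mu j • u j s) (v s) = ∑ i, mu i • b i := by
      simp only [LinearMap.sum_apply, LinearMap.smul_apply, hb, Finset.smul_sum]
      exact Finset.sum_comm
    rw [e3, W_add_self]
  have hall : ∀ i l, Zl (c i) l ∈ A D := fun i l =>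
    axiom_ex hcA (by rw [hsum0]; exact Submodule.zero_mem _) i l
  -- choose an index with mu i = 1
  obtain ⟨i, hi⟩ : ∃ i, mu i ≠ 0 := by
    by_contra hcon
    push Not at hcon
    exact hmu (funext hcon)
  have hi1 := zmod2_eq_one hi
  set x : Fin 3 → S → EW := fun j s => (∑ l, zt j l * t s i l) + u j s with hx
  have hxG : ∀ j s, x j s ∈ Gi (D + 2) (d s) := fun j s =>
    Submodule.add_mem _ (Submodule.sum_mem _ (fun l _ => Gi_zt (ht s i l) j l)) (hu j s)
  have hxev : ∀ j, ∑ s, x j s (v s) = Zl (c i) j := by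
    intro j
    have e1 : Zl (c i) j = (∑ l, ∑ s, (zt j l * t s i l) (v s)) + b j := by
      rw [Zl_eq]
      have : ∀ l, zt j l (c i l) = (∑ s, (zt j l * t s i l) (v s)) + mu i • zt j l (y l) := by
        intro l
        simp only [hc, map_add, map_sum, map_smul]
        rfl
      simp only [this]
      rw [Finset.sum_add_distrib, ← Finset.smul_sum, ← Zl_eq, ← hby, hi1, one_smul]
    rw [e1, Finset.sum_comm, hb, ← Finset.sum_add_distrib]
    refine Finset.sum_congr rfl (fun s _ => ?_)
    simp only [hx, LinearMap.add_apply, LinearMap.sum_apply]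
  have hxD : ∀ j s, x j s ∈ Gi D (d s) := fun j =>
    str (x j) (hxG j) (by rw [hxev j]; exact hall i j)
  have hfin : ∑ j, zt l j * u j s = (∑ j, zt l j * x j s) + t s i l := by
    have e1 : ∀ j, zt l j * x j s = (∑ m, (zt l j * zt j m) * t s i m) + zt l j * u j s := by
      intro j
      simp only [hx, mul_add, Finset.mul_sum, mul_assoc]
    have e2 : ∑ j, ∑ m, (zt l j * zt j m) * t s i m = t s i l := by
      rw [Finset.sum_comm]
      have : ∀ m, ∑ j, (zt l j * zt j m) * t s i m = if l = m then t s i m else 0 := by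
        intro m
        rw [← Finset.sum_mul, zt_zt]
        split_ifs <;> simp
      simp only [this]
      simp
    simp only [e1]
    rw [Finset.sum_add_distrib, e2]
    have : t s i l + ∑ j, zt l j * u j s + t s i l = ∑ j, zt l j * u j s := by
      have h2 : t s i l + t s i l = 0 := by
        apply LinearMap.ext; intro w
        exact W_add_self _
      rw [add_comm (t s i l), add_assoc, h2, add_zero]
    rw [this]
  rw [hfin]
  exact Submodule.add_mem _ (Submodule.sum_mem _ (fun j _ => Gi_zt (hxD j s) l j)) (ht s i l)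

theorem strict (hv : ∀ s, v s ∈ A (d s)) (hd : ∀ s, 2 ≤ d s) (hS : Fintype.card S < 3)
    (irr : ∀ (D : ℕ) (x : S → EW), (∀ s, x s ∈ Gi (D + 2) (d s)) → ∑ s, x s (v s) ∈ A D →
      ∀ s, d s = D + 2 → x s = 0)
    (D : ℕ) (x : S → EW) (hx : ∀ s, x s ∈ Gi (D + 2) (d s)) (hev : ∑ s, x s (v s) ∈ A D)
    (s : S) : x s ∈ Gi D (d s) := by
  induction D generalizing x s with
  | zero =>
    have : x s = 0 := by
      by_cases h : d s = 2
      · exact irr 0 x hx hev s h
      · have h1 := hx s
        have h2 := hd s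
        unfold Gi at h1
        rw [if_neg (by omega)] at h1
        exact (Submodule.mem_bot _).1 h1
    rw [this]; exact Submodule.zero_mem _
  | succ D ih =>
    have hdec : ∀ s, ∃ u : Fin 3 → Fin 3 → EW, (∀ i j, u i j ∈ Gi (D + 2) (d s)) ∧
        x s = ∑ i, ∑ j, zt i j * u i j := by
      intro s
      exact Gi_decomp (hx s) (irr (D + 1) x hx hev s)
    choose u hu hxu using hdec
    have hc : ∀ i j, (∑ s, u s i j (v s)) ∈ A ((D + 1) + 1) := fun i j =>
      Submodule.sum_mem _ (fun s _ => Gi_act (hu s i j) (hv s))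
    have hsum : ∑ i, Zl (fun j => ∑ s, u s i j (v s)) i = ∑ s, x s (v s) := by
      have e1 : ∀ i, Zl (fun j => ∑ s, u s i j (v s)) i = ∑ s, ∑ j, (zt i j * u s i j) (v s) := by
        intro i
        rw [Zl_eq, Finset.sum_comm]
        refine Finset.sum_congr rfl (fun j _ => ?_)
        rw [map_sum]; rfl
      simp only [e1]
      rw [Finset.sum_comm]
      refine Finset.sum_congr rfl (fun s _ => ?_)
      conv_rhs => rw [hxu s]
      simp only [LinearMap.sum_apply]
    have hall : ∀ i l, Zl (fun j => ∑ s, u s i j (v s)) l ∈ A (D + 1) := fun i l =>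
      axiom_ex (c := fun i j => ∑ s, u s i j (v s)) hc (by rw [hsum]; exact hev) i l
    rw [hxu s]
    refine Submodule.sum_mem _ (fun i _ => ?_)
    exact claim_b hv hS D (fun x hx hev s => ih x hx hev s) (fun j s => u s i j)
      (fun j s => hu s i j) (hall i) i s

end

end Pool.Agent.Lib.MP_4a5c06_al
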